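import Mathlib

/-! Hardy, Sobolev and Hardy-Sobolev inequalities for test functions on `ℝ³` -/

namespace Pool.Agent.Q175.PZ

open MeasureTheory Filter Topology Set
open scoped ENNReal NNReal

/-- three-dimensional Euclidean space -/
abbrev E3 : Type := EuclideanSpace ℝ (Fin 3)

/-- Cauchy-Schwarz -/
lemma cs {α : Type*} [MeasurableSpace α] (μ : Measure α) {f g : α → ℝ≥0∞} (hf : AEMeasurable f μ)
    (hg : AEMeasurable g μ) : (∫⁻ x, f x * g x ∂μ) ^ 2 ≤ (∫⁻ x, f x ^ 2 ∂μ) * ∫⁻ x, g x ^ 2 ∂μ := by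
  have h := ENNReal.lintegral_mul_le_Lp_mul_Lq μ Real.HolderConjugate.two_two hf hg
  have e : ∀ f : α → ℝ≥0∞, (∫⁻ x, f x ^ (2:ℝ) ∂μ) = ∫⁻ x, f x ^ 2 ∂μ := by
    intro f; congr 1; ext x; exact ENNReal.rpow_two _
  rw [e, e] at h
  calc (∫⁻ x, f x * g x ∂μ) ^ 2 ≤ ((∫⁻ x, f x ^ 2 ∂μ) ^ (1 / (2:ℝ)) * (∫⁻ x, g x ^ 2 ∂μ) ^ (1 / (2:ℝ))) ^ 2 := by
        gcongr; exact h
    _ = _ := by
      rw [mul_pow, ← ENNReal.rpow_natCast, ← ENNReal.rpow_natCast, ← ENNReal.rpow_mul, ← ENNReal.rpow_mul]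
      norm_num

/-- scaling of integrals -/
lemma lint_smul (f : E3 → ℝ≥0∞) {t : ℝ} (ht : 0 < t) :
    ∫⁻ x, f (t • x) = ENNReal.ofReal (t ^ 3)⁻¹ * ∫⁻ x, f x := by
  have h1 : ∫⁻ x, f (t • x) = ∫⁻ y, f y ∂Measure.map (fun x : E3 => t • x) volume :=
    (lintegral_map_equiv f (Homeomorph.smul (isUnit_iff_ne_zero.2 ht.ne').unit).toMeasurableEquiv).symm
  rw [h1, Measure.map_addHaar_smul volume ht.ne', lintegral_smul_measure]
  simp only [finrank_euclideanSpace, Fintype.card_fin]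
  rw [abs_of_pos (by positivity)]
  rfl

/-- the weight `1/|x|` -/
noncomputable def wt (x : E3) : ℝ≥0∞ := ‖x‖ₑ⁻¹

/-- the measure `dx/|x|` -/
noncomputable def muw : Measure E3 := volume.withDensity wt

lemma wt_meas : Measurable wt := measurable_enorm.inv

lemma muw_ac : muw ≪ (volume : Measure E3) := withDensity_absolutelyContinuous _ _

lemma muw_lint (f : E3 → ℝ≥0∞) (hf : AEMeasurable f volume) :
    ∫⁻ x, f x ∂muw = ∫⁻ x, wt x * f x := by
  unfold muw
  rw [lintegral_withDensity_eq_lintegral_mul₀ wt_meas.aemeasurable hf]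
  rfl

lemma muw_smul (f : E3 → ℝ≥0∞) (hf : AEMeasurable f volume) {t : ℝ} (ht : 0 < t) :
    ∫⁻ x, f (t • x) ∂muw = ENNReal.ofReal (t ^ 2)⁻¹ * ∫⁻ x, f x ∂muw := by
  have hft : AEMeasurable (fun x : E3 => f (t • x)) volume := by
    have hq : Measure.QuasiMeasurePreserving (fun x : E3 => t • x) volume volume :=
      Measure.quasiMeasurePreserving_smul volume ht.ne'
    exact hf.comp_quasiMeasurePreserving hq
  rw [muw_lint _ hft, muw_lint _ hf]
  have h1 : ∀ x : E3, wt x = ENNReal.ofReal t * wt (t • x) := by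
    intro x
    unfold wt
    rw [enorm_smul, ENNReal.mul_inv (Or.inr (by simp)) (Or.inl (by simp)), ← mul_assoc]
    have : ENNReal.ofReal t * ‖t‖ₑ⁻¹ = 1 := by
      rw [Real.enorm_eq_ofReal ht.le]
      exact ENNReal.mul_inv_cancel (by simpa using ht) ENNReal.ofReal_ne_top
    rw [this, one_mul]
  have h2 : ∫⁻ x, wt x * f (t • x) = ENNReal.ofReal t * ∫⁻ x, wt (t • x) * f (t • x) := by
    rw [← lintegral_const_mul'' _ (by
      exact (wt_meas.comp (measurable_const_smul t)).aemeasurable.mul hft)]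
    congr 1; ext x
    rw [← mul_assoc, ← h1]
  rw [h2, lint_smul (fun x => wt x * f x) ht, ← mul_assoc, ← ENNReal.ofReal_mul ht.le]
  congr 2
  field_simp

/-- the classical test functions supported away from the origin -/
structure Test0 (φ : E3 → ℝ) : Prop where
  smooth : ContDiff ℝ 1 φ
  supp : HasCompactSupport φ
  zero : (0 : E3) ∉ tsupport φ

lemma Test0.cont {φ : E3 → ℝ} (h : Test0 φ) : Continuous φ := h.smooth.continuous

/-- an abbreviation -/
noncomputable def inv2 (x : E3) : ℝ := (‖x‖ ^ 2)⁻¹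

lemma hasFDerivAt_inv2 {x : E3} (hx : x ≠ 0) :
    HasFDerivAt inv2 (-((‖x‖ ^ 2) ^ 2)⁻¹ • ((2:ℝ) • (innerSL ℝ x))) x := by
  have h1 : HasFDerivAt (fun x : E3 => ‖x‖ ^ 2) ((2:ℝ) • (innerSL ℝ x)) x := by
    refine (hasStrictFDerivAt_norm_sq x).hasFDerivAt.congr_fderiv ?_
    ext v
    simp [two_mul, two_smul]
  have h2 : HasDerivAt (fun y : ℝ => y⁻¹) (-((‖x‖ ^ 2) ^ 2)⁻¹) (‖x‖ ^ 2) :=
    hasDerivAt_inv (by positivity)
  exact h2.comp_hasFDerivAt x h1

lemma hardy_real {φ : E3 → ℝ} (h : Test0 φ) :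
    Integrable (fun x => φ x ^ 2 * inv2 x) ∧ Integrable (fun x => ‖fderiv ℝ φ x‖ ^ 2) ∧
    ∫ x, φ x ^ 2 * inv2 x ≤ 4 * ∫ x, ‖fderiv ℝ φ x‖ ^ 2 := by
  have hφc := h.cont
  have hdc : Continuous (fderiv ℝ φ) := h.smooth.continuous_fderiv (by norm_num)
  have hdcs : HasCompactSupport (fderiv ℝ φ) := h.supp.fderiv (𝕜 := ℝ)
  -- continuity of products with a function continuous off the origin
  have hcont : ∀ g : E3 → ℝ, (∀ x ≠ 0, ContinuousAt g x) → ∀ ψ : E3 → ℝ, Continuous ψ →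
      (∀ x, x ∉ tsupport φ → ψ =ᶠ[𝓝 x] 0) → Continuous (fun x => ψ x * g x) := by
    intro g hg ψ hψ hψ0
    rw [continuous_iff_continuousAt]
    intro x
    by_cases hx : x ∈ tsupport φ
    · have hx0 : x ≠ 0 := fun h0 => h.zero (h0 ▸ hx)
      exact hψ.continuousAt.mul (hg x hx0)
    · have h1 : (fun x => ψ x * g x) =ᶠ[𝓝 x] fun _ => 0 := by
        filter_upwards [hψ0 x hx] with y hy
        rw [hy]; simp
      exact continuousAt_const.congr h1.symm
  have hsq0 : ∀ x, x ∉ tsupport φ → (fun x => φ x ^ 2) =ᶠ[𝓝 x] 0 := by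
    intro x hx
    have := notMem_tsupport_iff_eventuallyEq.mp hx
    filter_upwards [this] with y hy
    rw [hy]; simp
  have hinvc : ∀ x : E3, x ≠ 0 → ContinuousAt inv2 x := fun x hx => (hasFDerivAt_inv2 hx).continuousAt
  have hcs : ∀ f : E3 → ℝ, (∀ x, φ x = 0 → f x = 0) → HasCompactSupport f := by
    intro f hf
    refine h.supp.mono ?_
    intro x hx
    rw [Function.mem_support] at hx ⊢
    exact fun h0 => hx (hf x h0)
  have I1 : Integrable (fun x => φ x ^ 2 * inv2 x) :=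
    (hcont inv2 hinvc _ (hφc.pow 2) hsq0).integrable_of_hasCompactSupport (hcs _ (by
      intro x hx; simp [hx]))
  have I2 : Integrable (fun x => ‖fderiv ℝ φ x‖ ^ 2) := by
    refine ((hdc.norm).pow 2).integrable_of_hasCompactSupport ?_
    refine hdcs.mono ?_
    intro x hx
    rw [Function.mem_support] at hx ⊢
    intro h0; apply hx; simp [h0]
  refine ⟨I1, I2, ?_⟩
  set g : Fin 3 → E3 → ℝ := fun i x => x i * inv2 x with hgdef
  have hgd : ∀ i, ∀ x : E3, x ≠ 0 → HasFDerivAt (g i)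
      (x i • (-((‖x‖ ^ 2) ^ 2)⁻¹ • ((2:ℝ) • (innerSL ℝ x))) + inv2 x • (EuclideanSpace.proj i : E3 →L[ℝ] ℝ)) x := by
    intro i x hx
    exact ((EuclideanSpace.proj i : E3 →L[ℝ] ℝ).hasFDerivAt (x := x)).mul (hasFDerivAt_inv2 hx)
  have hsqd : Differentiable ℝ (fun x => φ x ^ 2) := (h.smooth.differentiable (by norm_num)).pow 2
  have hsqf : ∀ x v, fderiv ℝ (fun x => φ x ^ 2) x v = 2 * φ x * fderiv ℝ φ x v := by
    intro x v
    have h1 := ((h.smooth.differentiable (by norm_num)) x).hasFDerivAt.pow 2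
    rw [h1.fderiv]
    simp
  set e : Fin 3 → E3 := fun i => EuclideanSpace.single i 1 with he
  have hgder : ∀ i, ∀ x : E3, x ≠ 0 → fderiv ℝ (g i) x (e i) = inv2 x - 2 * (x i) ^ 2 * ((‖x‖ ^ 2) ^ 2)⁻¹ := by
    intro i x hx
    rw [(hgd i x hx).fderiv]
    simp [he, EuclideanSpace.inner_single_right]
    ring
  have hgc : ∀ i, ∀ x : E3, x ≠ 0 → ContinuousAt (g i) x := fun i x hx => (hgd i x hx).continuousAt
  have hgdc : ∀ i, ∀ x : E3, x ≠ 0 → ContinuousAt (fun x => fderiv ℝ (g i) x (e i)) x := by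
    intro i x hx
    have h1 : ContinuousAt (fun x : E3 => inv2 x - 2 * (x i) ^ 2 * ((‖x‖ ^ 2) ^ 2)⁻¹) x := by
      have hx2 : (‖x‖ ^ 2) ^ 2 ≠ 0 := by positivity
      refine (hinvc x hx).sub (ContinuousAt.mul (by fun_prop) (ContinuousAt.inv₀ (by fun_prop) hx2))
    refine h1.congr ?_
    filter_upwards [isOpen_ne.mem_nhds hx] with y hy
    exact (hgder i y hy).symm
  have hder0 : ∀ v : E3, ∀ x, x ∉ tsupport φ → (fun x => fderiv ℝ (fun x => φ x ^ 2) x v) =ᶠ[𝓝 x] 0 := by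
    intro v x hx
    have := notMem_tsupport_iff_eventuallyEq.mp hx
    filter_upwards [this] with y hy
    rw [hsqf, hy]; simp
  have hsqfc : ∀ v : E3, Continuous (fun x => fderiv ℝ (fun x => φ x ^ 2) x v) := by
    intro v
    have : (fun x => fderiv ℝ (fun x => φ x ^ 2) x v) = fun x => 2 * φ x * fderiv ℝ φ x v := by
      ext x; exact hsqf x v
    rw [this]
    exact (continuous_const.mul hφc).mul (hdc.clm_apply continuous_const)
  have hA : ∀ i, Integrable (fun x => fderiv ℝ (fun x => φ x ^ 2) x (e i) * g i x) := by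
    intro i
    refine (hcont (g i) (hgc i) _ (hsqfc _) (hder0 _)).integrable_of_hasCompactSupport (hcs _ ?_)
    intro x hx; rw [hsqf, hx]; simp
  have hB : ∀ i, Integrable (fun x => φ x ^ 2 * fderiv ℝ (g i) x (e i)) := by
    intro i
    refine (hcont _ (hgdc i) _ (hφc.pow 2) hsq0).integrable_of_hasCompactSupport (hcs _ ?_)
    intro x hx; simp [hx]
  have hC : ∀ i, Integrable (fun x => φ x ^ 2 * g i x) := by
    intro i
    refine (hcont _ (hgc i) _ (hφc.pow 2) hsq0).integrable_of_hasCompactSupport (hcs _ ?_)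
    intro x hx; simp [hx]
  have hibp : ∀ i, ∫ x, φ x ^ 2 * fderiv ℝ (g i) x (e i) = - ∫ x, fderiv ℝ (fun x => φ x ^ 2) x (e i) * g i x := by
    intro i
    refine integral_mul_fderiv_eq_neg_fderiv_mul_of_integrable (hA i) (hB i) (hC i) ?_ ?_
    · intro x _; exact hsqd x
    · intro x hx
      have hx' : x ∈ tsupport φ := by
        refine closure_mono ?_ hx
        intro y hy
        rw [Function.mem_support] at hy ⊢
        intro h0; apply hy; simp [h0]
      exact (hgd i x (fun h0 => h.zero (h0 ▸ hx'))).differentiableAt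
  have hsum1 : ∑ i, ∫ x, φ x ^ 2 * fderiv ℝ (g i) x (e i) = ∫ x, φ x ^ 2 * inv2 x := by
    rw [← integral_finsetSum _ (fun i _ => hB i)]
    congr 1; ext x
    by_cases hx : x = 0
    · have : φ x = 0 := by
        subst hx
        exact image_eq_zero_of_notMem_tsupport h.zero
      simp [this]
    · rw [← Finset.mul_sum]
      congr 1
      rw [Finset.sum_congr rfl (fun i _ => hgder i x hx)]
      have hn : ‖x‖ ^ 2 = ∑ i, (x i) ^ 2 := by
        rw [EuclideanSpace.norm_sq_eq]; simp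
      have hx2 : ‖x‖ ^ 2 ≠ 0 := by positivity
      rw [Finset.sum_sub_distrib, Finset.sum_const, Finset.card_univ, Fintype.card_fin,
        ← Finset.sum_mul, ← Finset.mul_sum, ← hn]
      unfold inv2
      generalize ‖x‖ ^ 2 = a at hx2
      simp only [nsmul_eq_mul]
      push_cast
      field_simp
      norm_num
  have hdecomp : ∀ x v : E3, fderiv ℝ φ x v = ∑ i, v i * fderiv ℝ φ x (e i) := by
    intro x v
    have hv : v = ∑ i, v i • e i := by
      ext j
      simp [he, Fin.sum_univ_three]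
      fin_cases j <;> simp
    conv_lhs => rw [hv]
    rw [map_sum]
    simp
  have hsum2 : ∑ i, ∫ x, fderiv ℝ (fun x => φ x ^ 2) x (e i) * g i x =
      ∫ x, 2 * φ x * fderiv ℝ φ x x * inv2 x := by
    rw [← integral_finsetSum _ (fun i _ => hA i)]
    congr 1; ext x
    simp only [hsqf, hgdef]
    rw [hdecomp x x, Finset.mul_sum, Finset.sum_mul]
    refine Finset.sum_congr rfl fun i _ => ?_
    ring
  have hmain : ∫ x, φ x ^ 2 * inv2 x = - ∫ x, 2 * φ x * fderiv ℝ φ x x * inv2 x := by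
    rw [← hsum1, ← hsum2, ← Finset.sum_neg_distrib]
    exact Finset.sum_congr rfl fun i _ => hibp i
  -- pointwise Young inequality
  have hyoung : ∀ x, -(2 * φ x * fderiv ℝ φ x x * inv2 x) ≤ (1/2) * (φ x ^ 2 * inv2 x) + 2 * ‖fderiv ℝ φ x‖ ^ 2 := by
    intro x
    by_cases hx : x = 0
    · subst hx
      have : φ 0 = 0 := image_eq_zero_of_notMem_tsupport h.zero
      simp only [this]
      have h0 : 0 ≤ ‖fderiv ℝ φ 0‖ ^ 2 := by positivity
      simp
    · have h1 : |fderiv ℝ φ x x| ≤ ‖fderiv ℝ φ x‖ * ‖x‖ := (fderiv ℝ φ x).le_opNorm x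
      have hxn : 0 < ‖x‖ := norm_pos_iff.mpr hx
      set a := |φ x| / ‖x‖ with ha
      have h2 : φ x ^ 2 * inv2 x = a ^ 2 := by
        unfold inv2; rw [ha, div_pow, sq_abs]; ring
      have h3 : -(2 * φ x * fderiv ℝ φ x x * inv2 x) ≤ 2 * a * ‖fderiv ℝ φ x‖ := by
        calc -(2 * φ x * fderiv ℝ φ x x * inv2 x) ≤ |2 * φ x * fderiv ℝ φ x x * inv2 x| := neg_le_abs _
          _ = 2 * |φ x| * |fderiv ℝ φ x x| * inv2 x := by
            rw [abs_mul, abs_mul, abs_mul, abs_two, abs_of_nonneg (show 0 ≤ inv2 x by unfold inv2; positivity)]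
          _ ≤ 2 * |φ x| * (‖fderiv ℝ φ x‖ * ‖x‖) * inv2 x := by
            have : 0 ≤ inv2 x := by unfold inv2; positivity
            gcongr
          _ = 2 * a * ‖fderiv ℝ φ x‖ := by
            unfold inv2; rw [ha]; field_simp
      rw [h2]
      nlinarith [sq_nonneg (a - 2 * ‖fderiv ℝ φ x‖)]
  have I3 : Integrable (fun x => 2 * φ x * fderiv ℝ φ x x * inv2 x) := by
    have : (fun x => 2 * φ x * fderiv ℝ φ x x * inv2 x) = fun x => ∑ i, fderiv ℝ (fun x => φ x ^ 2) x (e i) * g i x := by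
      ext x
      simp only [hsqf, hgdef]
      rw [hdecomp x x, Finset.mul_sum, Finset.sum_mul]
      refine Finset.sum_congr rfl fun i _ => ?_
      ring
    rw [this]
    exact integrable_finsetSum _ (fun i _ => hA i)
  have hle : - ∫ x, 2 * φ x * fderiv ℝ φ x x * inv2 x ≤ ∫ x, ((1/2) * (φ x ^ 2 * inv2 x) + 2 * ‖fderiv ℝ φ x‖ ^ 2) := by
    rw [← integral_neg]
    exact integral_mono I3.neg ((I1.const_mul _).add (I2.const_mul _)) hyoung
  rw [← hmain, integral_add (I1.const_mul _) (I2.const_mul _), integral_const_mul, integral_const_mul] at hle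
  linarith

end Pool.Agent.Q175.PZ
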