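import Pool.Agent.Q175.PZ.Sob

/-! Dilations -/

namespace Pool.Agent.Q175.PZ

open MeasureTheory Filter Topology Set
open scoped ENNReal NNReal

/-- dilation of a function -/
noncomputable def dil (τ : ℝ) (f : E3 → ℝ) (x : E3) : ℝ := τ⁻¹ * f ((τ ^ 2)⁻¹ • x)

/-- dilation of a vector field -/
noncomputable def dilG (τ : ℝ) (F : E3 → E3) (x : E3) : E3 := (τ ^ 3)⁻¹ • F ((τ ^ 2)⁻¹ • x)

lemma grad_dil {τ : ℝ} (hτ : 0 < τ) {φ : E3 → ℝ} (h : Differentiable ℝ φ) :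
    gradient (dil τ φ) = dilG τ (gradient φ) := by
  ext1 x
  unfold gradient dilG
  have h1 : HasFDerivAt (fun x : E3 => (τ ^ 2)⁻¹ • x) ((τ ^ 2)⁻¹ • ContinuousLinearMap.id ℝ E3) x :=
    ((τ ^ 2)⁻¹ • ContinuousLinearMap.id ℝ E3).hasFDerivAt
  have h2 := ((h ((τ ^ 2)⁻¹ • x)).hasFDerivAt.comp x h1).const_mul τ⁻¹
  have h3 : fderiv ℝ (dil τ φ) x = (τ ^ 3)⁻¹ • fderiv ℝ φ ((τ ^ 2)⁻¹ • x) := by
    have : HasFDerivAt (dil τ φ) _ x := h2
    rw [this.fderiv]
    ext v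
    simp
    field_simp
  rw [h3, map_smul]

lemma N_dilG {τ : ℝ} (hτ : 0 < τ) (F : E3 → E3) :
    eLpNorm (dilG τ F) 2 volume = eLpNorm F 2 volume := by
  have h : eLpNorm (dilG τ F) 2 volume ^ 2 = eLpNorm F 2 volume ^ 2 := by
    rw [N_sq, N_sq]
    have e1 : ∀ x, ‖dilG τ F x‖ₑ ^ 2 = ENNReal.ofReal ((τ ^ 3)⁻¹ ^ 2) * ‖F ((τ ^ 2)⁻¹ • x)‖ₑ ^ 2 := by
      intro x
      unfold dilG
      rw [enorm_smul, mul_pow, Real.enorm_eq_ofReal (by positivity), ENNReal.ofReal_pow (by positivity)]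
    simp only [e1]
    rw [lintegral_const_mul' _ _ ENNReal.ofReal_ne_top, lint_smul (fun y => ‖F y‖ₑ ^ 2) (by positivity),
      ← mul_assoc, ← ENNReal.ofReal_mul (by positivity)]
    have : (τ ^ 3)⁻¹ ^ 2 * ((τ ^ 2)⁻¹ ^ 3)⁻¹ = 1 := by field_simp
    rw [this, ENNReal.ofReal_one, one_mul]
  exact le_antisymm ((ENNReal.pow_le_pow_left_iff (by norm_num)).mp h.le)
    ((ENNReal.pow_le_pow_left_iff (by norm_num)).mp h.ge)

lemma N_dil {τ : ℝ} (hτ : 0 < τ) (f : E3 → ℝ) :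
    eLpNorm (dil τ f) 2 volume = ENNReal.ofReal (τ ^ 2) * eLpNorm f 2 volume := by
  have h : eLpNorm (dil τ f) 2 volume ^ 2 = (ENNReal.ofReal (τ ^ 2) * eLpNorm f 2 volume) ^ 2 := by
    rw [mul_pow, N_sq, N_sq]
    have e1 : ∀ x, ‖dil τ f x‖ₑ ^ 2 = ENNReal.ofReal (τ⁻¹ ^ 2) * ‖f ((τ ^ 2)⁻¹ • x)‖ₑ ^ 2 := by
      intro x
      unfold dil
      rw [enorm_mul, mul_pow, Real.enorm_eq_ofReal (by positivity), ENNReal.ofReal_pow (by positivity)]
    simp only [e1]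
    rw [lintegral_const_mul' _ _ ENNReal.ofReal_ne_top, lint_smul (fun y => ‖f y‖ₑ ^ 2) (by positivity),
      ← mul_assoc, ← ENNReal.ofReal_mul (by positivity), ← ENNReal.ofReal_pow (by positivity)]
    congr 2
    field_simp
  exact le_antisymm ((ENNReal.pow_le_pow_left_iff (by norm_num)).mp h.le)
    ((ENNReal.pow_le_pow_left_iff (by norm_num)).mp h.ge)

lemma qmp {τ : ℝ} (hτ : 0 < τ) : Measure.QuasiMeasurePreserving (fun x : E3 => (τ ^ 2)⁻¹ • x) volume volume :=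
  Measure.quasiMeasurePreserving_smul volume (by positivity)

lemma aesm_dil {τ : ℝ} (hτ : 0 < τ) {f : E3 → ℝ} (h : AEStronglyMeasurable f volume) :
    AEStronglyMeasurable (dil τ f) volume :=
  (h.comp_quasiMeasurePreserving (qmp hτ)).const_mul _

lemma aesm_dilG {τ : ℝ} (hτ : 0 < τ) {f : E3 → E3} (h : AEStronglyMeasurable f volume) :
    AEStronglyMeasurable (dilG τ f) volume :=
  (h.comp_quasiMeasurePreserving (qmp hτ)).const_smul ((τ ^ 3)⁻¹)

/-- star-shapedness -/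
def Star (Ω : Set E3) : Prop := ∀ x ∈ Ω, ∀ t : ℝ, 0 < t → t ≤ 1 → t • x ∈ Ω

lemma test_dil {Ω : Set E3} (hΩ : Star Ω) {τ : ℝ} (hτ : 0 < τ) (hτ1 : τ ≤ 1) {φ : E3 → ℝ}
    (h : ContDiff ℝ ((⊤ : ℕ∞) : WithTop ℕ∞) φ ∧ HasCompactSupport φ ∧ tsupport φ ⊆ Ω) :
    ContDiff ℝ ((⊤ : ℕ∞) : WithTop ℕ∞) (dil τ φ) ∧ HasCompactSupport (dil τ φ) ∧
      tsupport (dil τ φ) ⊆ Ω := by
  have hts : tsupport (dil τ φ) ⊆ (fun x : E3 => (τ ^ 2)⁻¹ • x) ⁻¹' tsupport φ := by
    apply closure_minimal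
    · intro x hx
      rw [Function.mem_support] at hx
      apply subset_tsupport
      rw [Function.mem_support]
      intro h0
      apply hx
      unfold dil
      rw [h0, mul_zero]
    · exact (isClosed_tsupport φ).preimage (continuous_const_smul _)
  have hts2 : tsupport (dil τ φ) ⊆ (fun x : E3 => (τ ^ 2) • x) '' tsupport φ := by
    intro x hx
    refine ⟨(τ ^ 2)⁻¹ • x, hts hx, ?_⟩
    simp only
    rw [smul_smul, mul_inv_cancel₀ (by positivity), one_smul]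
  refine ⟨?_, ?_, ?_⟩
  · exact contDiff_const.mul (h.1.comp (contDiff_const_smul _))
  · exact (h.2.1.image (continuous_const_smul _)).of_isClosed_subset (isClosed_tsupport _) hts2
  · rintro x hx
    obtain ⟨y, hy, rfl⟩ := hts2 hx
    exact hΩ y (h.2.2 hy) _ (by positivity) (pow_le_one₀ hτ.le hτ1)

lemma isH_dil {Ω : Set E3} (hΩ : Star Ω) {τ : ℝ} (hτ : 0 < τ) (hτ1 : τ ≤ 1) {f : E3 → ℝ} {F : E3 → E3}
    (h : IsH Ω f F) : IsH Ω (dil τ f) (dilG τ F) := by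
  refine ⟨⟨aesm_dil hτ h.memf.1, ?_⟩, ⟨aesm_dilG hτ h.memF.1, ?_⟩, ?_⟩
  · rw [N_dil hτ]; exact ENNReal.mul_lt_top ENNReal.ofReal_lt_top h.memf.2
  · rw [N_dilG hτ]; exact h.memF.2
  · obtain ⟨φ, hφ, h1, h2⟩ := h.seq
    refine ⟨fun n => dil τ (φ n), fun n => test_dil hΩ hτ hτ1 (hφ n), ?_, ?_⟩
    · have e1 : ∀ n, eLpNorm (fun x => dil τ (φ n) x - dil τ f x) 2 volume =
          ENNReal.ofReal (τ ^ 2) * eLpNorm (fun x => φ n x - f x) 2 volume := by
        intro n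
        rw [← N_dil hτ]
        congr 1; ext x; unfold dil; ring
      simp only [e1]
      have := ENNReal.Tendsto.const_mul (a := ENNReal.ofReal (τ ^ 2)) h1 (Or.inr ENNReal.ofReal_ne_top)
      simpa using this
    · have e1 : ∀ n, eLpNorm (fun x => gradient (dil τ (φ n)) x - dilG τ F x) 2 volume =
          eLpNorm (fun x => gradient (φ n) x - F x) 2 volume := by
        intro n
        rw [grad_dil hτ ((hφ n).1.differentiable (by simp)), ← N_dilG hτ (fun x => gradient (φ n) x - F x)]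
        congr 1; ext1 x; unfold dilG; rw [smul_sub]
      simp only [e1]
      exact h2

lemma isH_sub {Ω : Set E3} {f g : E3 → ℝ} {F G : E3 → E3} (hf : IsH Ω f F) (hg : IsH Ω g G) :
    IsH Ω (fun x => f x - g x) (fun x => F x - G x) := by
  refine ⟨hf.memf.sub hg.memf, hf.memF.sub hg.memF, ?_⟩
  obtain ⟨φ, hφ, h1, h2⟩ := hf.seq
  obtain ⟨ψ, hψ, k1, k2⟩ := hg.seq
  refine ⟨fun n => fun x => φ n x - ψ n x, fun n => ⟨(hφ n).1.sub (hψ n).1, ?_, ?_⟩, ?_, ?_⟩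
  · exact (hφ n).2.1.sub (hψ n).2.1
  · refine (tsupport_sub (φ n) (ψ n)).trans ?_
    exact union_subset (hφ n).2.2 (hψ n).2.2
  · have hb : ∀ n, eLpNorm (fun x => (φ n x - ψ n x) - (f x - g x)) 2 volume ≤
        eLpNorm (fun x => φ n x - f x) 2 volume + eLpNorm (fun x => ψ n x - g x) 2 volume := by
      intro n
      have m1 : AEStronglyMeasurable (fun x => φ n x - f x) volume :=
        (hφ n).1.continuous.aestronglyMeasurable.sub hf.memf.1
      have m2 : AEStronglyMeasurable (fun x => ψ n x - g x) volume :=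
        (hψ n).1.continuous.aestronglyMeasurable.sub hg.memf.1
      have := eLpNorm_sub_le (p := 2) m1 m2 (by norm_num)
      refine le_trans (le_of_eq ?_) this
      congr 1; ext x; simp; ring
    refine tendsto_of_tendsto_of_tendsto_of_le_of_le tendsto_const_nhds ?_ (fun _ => zero_le) hb
    simpa using h1.add k1
  · have hb : ∀ n, eLpNorm (fun x => gradient (fun x => φ n x - ψ n x) x - (F x - G x)) 2 volume ≤
        eLpNorm (fun x => gradient (φ n) x - F x) 2 volume + eLpNorm (fun x => gradient (ψ n) x - G x) 2 volume := by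
      intro n
      have m1 : AEStronglyMeasurable (fun x => gradient (φ n) x - F x) volume :=
        (grad_cont ((hφ n).1.of_le (by exact_mod_cast le_top))).aestronglyMeasurable.sub hf.memF.1
      have m2 : AEStronglyMeasurable (fun x => gradient (ψ n) x - G x) volume :=
        (grad_cont ((hψ n).1.of_le (by exact_mod_cast le_top))).aestronglyMeasurable.sub hg.memF.1
      have := eLpNorm_sub_le (p := 2) m1 m2 (by norm_num)
      refine le_trans (le_of_eq ?_) this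
      congr 1; ext1 x
      have hd1 : DifferentiableAt ℝ (φ n) x := ((hφ n).1.differentiable (by simp)) x
      have hd2 : DifferentiableAt ℝ (ψ n) x := ((hψ n).1.differentiable (by simp)) x
      have : gradient (fun x => φ n x - ψ n x) x = gradient (φ n) x - gradient (ψ n) x := by
        unfold gradient
        rw [fderiv_fun_sub hd1 hd2, map_sub]
      rw [this]
      simp only [Pi.sub_apply]
      abel
    refine tendsto_of_tendsto_of_tendsto_of_le_of_le tendsto_const_nhds ?_ (fun _ => zero_le) hb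
    simpa using h2.add k2

/-- test functions belong to the class -/
lemma isH_test {Ω : Set E3} {φ : E3 → ℝ}
    (h : ContDiff ℝ ((⊤ : ℕ∞) : WithTop ℕ∞) φ ∧ HasCompactSupport φ ∧ tsupport φ ⊆ Ω) :
    IsH Ω φ (gradient φ) := by
  have hg : Continuous (gradient φ) := grad_cont (h.1.of_le (by exact_mod_cast le_top))
  have hgs : HasCompactSupport (gradient φ) := by
    have h1 : HasCompactSupport (fderiv ℝ φ) := h.2.1.fderiv (𝕜 := ℝ)
    refine h1.mono ?_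
    intro x hx
    rw [Function.mem_support] at hx ⊢
    intro h0; apply hx; unfold gradient; rw [h0, map_zero]
  refine ⟨h.1.continuous.memLp_of_hasCompactSupport h.2.1, hg.memLp_of_hasCompactSupport hgs,
    fun _ => φ, fun _ => h, ?_, ?_⟩
  · simp
  · simp

/-- the `L²` modulus of dilation for smooth functions -/
lemma dil_diff_test {φ : E3 → ℝ} (h : ContDiff ℝ 1 φ) (hs : HasCompactSupport φ)
    (hR : ∀ x ∈ tsupport φ, ‖x‖ ≤ 2) {τ : ℝ} (hτ : 0 < τ) (hτ1 : τ ≤ 1) :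
    eLpNorm (fun x => φ x - dil τ φ x) 2 volume ≤
      ENNReal.ofReal (1 - τ) * (eLpNorm φ 2 volume + 4 * eLpNorm (fderiv ℝ φ) 2 volume) := by
  set ψ : E3 → ℝ := fun y => φ y + 2 * fderiv ℝ φ y y with hψ
  have hdc : Continuous (fderiv ℝ φ) := h.continuous_fderiv (by norm_num)
  have hψc : Continuous ψ := h.continuous.add (continuous_const.mul (hdc.clm_apply continuous_id))
  -- bound for ψ
  have hψN : eLpNorm ψ 2 volume ≤ eLpNorm φ 2 volume + 4 * eLpNorm (fderiv ℝ φ) 2 volume := by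
    have m1 : AEStronglyMeasurable φ (volume : Measure E3) := h.continuous.aestronglyMeasurable
    have m2 : AEStronglyMeasurable (fun y => 2 * fderiv ℝ φ y y) (volume : Measure E3) :=
      (continuous_const.mul (hdc.clm_apply continuous_id)).aestronglyMeasurable
    refine (eLpNorm_add_le m1 m2 (by norm_num)).trans ?_
    gcongr
    have : eLpNorm (fun y => 2 * fderiv ℝ φ y y) 2 volume ≤ eLpNorm (fun y => (4:ℝ) • fderiv ℝ φ y) 2 volume := by
      apply eLpNorm_mono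
      intro y
      rw [norm_mul, norm_smul]
      by_cases hy : y ∈ tsupport φ
      · have h1 := (fderiv ℝ φ y).le_opNorm y
        have h2 := hR y hy
        have h3 := norm_nonneg (fderiv ℝ φ y)
        simp only [Real.norm_ofNat]
        nlinarith
      · have h1 : fderiv ℝ φ y = 0 := by
          have := notMem_tsupport_iff_eventuallyEq.mp hy
          rw [this.fderiv_eq]; simp
        rw [h1]; simp
    refine this.trans ?_
    have e := eLpNorm_const_smul (4:ℝ) (fderiv ℝ φ) 2 (volume : Measure E3)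
    have e2 : (fun y => (4:ℝ) • fderiv ℝ φ y) = (4:ℝ) • fderiv ℝ φ := rfl
    rw [e2, e]
    simp [Real.enorm_eq_ofReal]
  -- derivative in σ
  have hder : ∀ x : E3, ∀ σ : ℝ, 0 < σ → HasDerivAt (fun σ => dil σ φ x) (-((σ ^ 2)⁻¹ * ψ ((σ ^ 2)⁻¹ • x))) σ := by
    intro x σ hσ
    have h1 : HasDerivAt (fun σ : ℝ => (σ ^ 2)⁻¹) (-(2 * σ) / (σ ^ 2) ^ 2) σ := by
      have := (hasDerivAt_pow 2 σ).inv (by positivity)
      refine this.congr_deriv ?_
      norm_num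
    have h2 : HasDerivAt (fun σ : ℝ => (σ ^ 2)⁻¹ • x) ((-(2 * σ) / (σ ^ 2) ^ 2) • x) σ := h1.smul_const x
    have h3 := ((h.differentiable (by norm_num)) ((σ ^ 2)⁻¹ • x)).hasFDerivAt.comp_hasDerivAt σ h2
    have h4 : HasDerivAt (fun σ : ℝ => σ⁻¹) (-(σ ^ 2)⁻¹) σ := hasDerivAt_inv hσ.ne'
    refine (h4.mul h3).congr_deriv ?_
    simp only [hψ, map_smul, smul_eq_mul, Function.comp_apply]
    field_simp
    ring
  have hderc : ∀ x : E3, ContinuousOn (fun σ : ℝ => -((σ ^ 2)⁻¹ * ψ ((σ ^ 2)⁻¹ • x))) (Icc τ 1) := by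
    intro x
    have h1 : ContinuousOn (fun σ : ℝ => (σ ^ 2)⁻¹) (Icc τ 1) := by
      apply ContinuousOn.inv₀ (by fun_prop)
      intro σ hσ
      have : 0 < σ := lt_of_lt_of_le hτ hσ.1
      positivity
    exact (h1.mul (hψc.comp_continuousOn (h1.smul continuousOn_const))).neg
  have hpt : ∀ x : E3, ‖φ x - dil τ φ x‖ₑ ^ 2 ≤ ENNReal.ofReal (1 - τ) *
      ∫⁻ σ in Ioc τ 1, ‖(σ ^ 2)⁻¹ * ψ ((σ ^ 2)⁻¹ • x)‖ₑ ^ 2 := by
    intro x
    have h1 : ∫ σ in τ..1, -((σ ^ 2)⁻¹ * ψ ((σ ^ 2)⁻¹ • x)) = dil 1 φ x - dil τ φ x := by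
      apply intervalIntegral.integral_eq_sub_of_hasDerivAt (f := fun σ => dil σ φ x)
      · intro σ hσ
        rw [uIcc_of_le hτ1] at hσ
        exact hder x σ (lt_of_lt_of_le hτ hσ.1)
      · apply ContinuousOn.intervalIntegrable
        rw [uIcc_of_le hτ1]
        exact hderc x
    have h2 : dil 1 φ x = φ x := by unfold dil; simp
    rw [h2, intervalIntegral.integral_of_le hτ1] at h1
    rw [← h1]
    have h3 : ‖∫ σ in Ioc τ 1, -((σ ^ 2)⁻¹ * ψ ((σ ^ 2)⁻¹ • x))‖ₑ ≤ ∫⁻ σ in Ioc τ 1, 1 * ‖(σ ^ 2)⁻¹ * ψ ((σ ^ 2)⁻¹ • x)‖ₑ := by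
      refine (enorm_integral_le_lintegral_enorm _).trans (le_of_eq ?_)
      congr 1; ext σ; rw [enorm_neg, one_mul]
    have hm : Measurable (fun σ : ℝ => ‖(σ ^ 2)⁻¹ * ψ ((σ ^ 2)⁻¹ • x)‖ₑ) := by
      apply Measurable.enorm
      apply Measurable.mul (by fun_prop)
      exact hψc.measurable.comp ((by fun_prop : Measurable (fun σ : ℝ => (σ ^ 2)⁻¹)).smul_const x)
    have h4 := cs (volume.restrict (Ioc τ 1)) (f := fun _ => (1 : ℝ≥0∞)) (g := fun σ => ‖(σ ^ 2)⁻¹ * ψ ((σ ^ 2)⁻¹ • x)‖ₑ)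
      aemeasurable_const hm.aemeasurable
    calc _ ≤ (∫⁻ σ in Ioc τ 1, 1 * ‖(σ ^ 2)⁻¹ * ψ ((σ ^ 2)⁻¹ • x)‖ₑ) ^ 2 := by gcongr
      _ ≤ _ := h4
      _ = _ := by simp
  have hmj : Measurable (fun p : E3 × ℝ => ‖(p.2 ^ 2)⁻¹ * ψ ((p.2 ^ 2)⁻¹ • p.1)‖ₑ ^ 2) := by
    apply Measurable.pow_const
    apply Measurable.enorm
    apply Measurable.mul (by fun_prop)
    exact hψc.measurable.comp ((by fun_prop : Measurable (fun p : E3 × ℝ => (p.2 ^ 2)⁻¹)).smul measurable_fst)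
  have hfin : eLpNorm (fun x => φ x - dil τ φ x) 2 volume ^ 2 ≤ (ENNReal.ofReal (1 - τ) * eLpNorm ψ 2 volume) ^ 2 := by
    rw [N_sq]
    calc ∫⁻ x, ‖φ x - dil τ φ x‖ₑ ^ 2 ≤ ∫⁻ x, ENNReal.ofReal (1 - τ) *
          ∫⁻ σ in Ioc τ 1, ‖(σ ^ 2)⁻¹ * ψ ((σ ^ 2)⁻¹ • x)‖ₑ ^ 2 := lintegral_mono hpt
      _ = ENNReal.ofReal (1 - τ) * ∫⁻ x, ∫⁻ σ in Ioc τ 1, ‖(σ ^ 2)⁻¹ * ψ ((σ ^ 2)⁻¹ • x)‖ₑ ^ 2 :=
        lintegral_const_mul' _ _ ENNReal.ofReal_ne_top
      _ = ENNReal.ofReal (1 - τ) * ∫⁻ σ in Ioc τ 1, ∫⁻ x, ‖(σ ^ 2)⁻¹ * ψ ((σ ^ 2)⁻¹ • x)‖ₑ ^ 2 := by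
        rw [lintegral_lintegral_swap hmj.aemeasurable]
      _ ≤ ENNReal.ofReal (1 - τ) * ∫⁻ σ in Ioc τ 1, eLpNorm ψ 2 volume ^ 2 := by
        refine mul_le_mul_right ?_ _
        apply setLIntegral_mono measurable_const
        intro σ hσ
        have hσ0 : 0 < σ := lt_of_lt_of_le hτ hσ.1.le
        have e1 : ∀ x, ‖(σ ^ 2)⁻¹ * ψ ((σ ^ 2)⁻¹ • x)‖ₑ ^ 2 = ENNReal.ofReal ((σ ^ 2)⁻¹ ^ 2) * ‖ψ ((σ ^ 2)⁻¹ • x)‖ₑ ^ 2 := by
          intro x
          rw [enorm_mul, mul_pow, Real.enorm_eq_ofReal (by positivity), ENNReal.ofReal_pow (by positivity)]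
        simp only [e1]
        rw [lintegral_const_mul' _ _ ENNReal.ofReal_ne_top, lint_smul (fun y => ‖ψ y‖ₑ ^ 2) (by positivity),
          ← mul_assoc, ← ENNReal.ofReal_mul (by positivity), N_sq]
        have e2 : (σ ^ 2)⁻¹ ^ 2 * ((σ ^ 2)⁻¹ ^ 3)⁻¹ = σ ^ 2 := by field_simp
        rw [e2]
        calc ENNReal.ofReal (σ ^ 2) * ∫⁻ x, ‖ψ x‖ₑ ^ 2 ≤ 1 * ∫⁻ x, ‖ψ x‖ₑ ^ 2 := by
              gcongr
              rw [← ENNReal.ofReal_one]
              exact ENNReal.ofReal_le_ofReal (pow_le_one₀ hσ0.le hσ.2)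
          _ = _ := one_mul _
      _ = _ := by
        rw [setLIntegral_const, Real.volume_Ioc, mul_pow]
        ring
  have := (ENNReal.pow_le_pow_left_iff (by norm_num)).mp hfin
  exact this.trans (by gcongr)

lemma dil_diff {Ω : Set E3} (hR : ∀ x ∈ Ω, ‖x‖ ≤ 2) {f : E3 → ℝ} {F : E3 → E3} (h : IsH Ω f F)
    {τ : ℝ} (hτ : 0 < τ) (hτ1 : τ ≤ 1) :
    eLpNorm (fun x => f x - dil τ f x) 2 volume ≤
      ENNReal.ofReal (1 - τ) * (eLpNorm f 2 volume + 4 * eLpNorm F 2 volume) := by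
  obtain ⟨φ, hφ, h1, h2⟩ := h.seq
  have mφ : ∀ n, AEStronglyMeasurable (φ n) (volume : Measure E3) := fun n => (hφ n).1.continuous.aestronglyMeasurable
  have mg : ∀ n, AEStronglyMeasurable (gradient (φ n)) (volume : Measure E3) := fun n =>
    (grad_cont ((hφ n).1.of_le (by exact_mod_cast le_top))).aestronglyMeasurable
  set a : ℕ → ℝ≥0∞ := fun n => eLpNorm (fun x => φ n x - f x) 2 volume
  set b : ℕ → ℝ≥0∞ := fun n => eLpNorm (fun x => gradient (φ n) x - F x) 2 volume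
  have hkey : ∀ n, eLpNorm (fun x => f x - dil τ f x) 2 volume ≤
      a n + ENNReal.ofReal (τ ^ 2) * a n + ENNReal.ofReal (1 - τ) * ((a n + eLpNorm f 2 volume) + 4 * (b n + eLpNorm F 2 volume)) := by
    intro n
    have e0 : (fun x => f x - dil τ f x) = (fun x => (φ n x - dil τ (φ n) x)) - (fun x => (φ n x - f x) - dil τ (fun x => φ n x - f x) x) := by
      ext x; simp only [Pi.sub_apply]; unfold dil; ring
    have m1 : AEStronglyMeasurable (fun x => φ n x - f x) volume := (mφ n).sub h.memf.1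
    have m2 : AEStronglyMeasurable (dil τ (fun x => φ n x - f x)) volume := aesm_dil hτ m1
    have m3 : AEStronglyMeasurable (fun x => φ n x - dil τ (φ n) x) volume := (mφ n).sub (aesm_dil hτ (mφ n))
    rw [e0]
    refine (eLpNorm_sub_le m3 (m1.sub m2) (by norm_num)).trans ?_
    have k1 : eLpNorm (fun x => (φ n x - f x) - dil τ (fun x => φ n x - f x) x) 2 volume ≤ a n + ENNReal.ofReal (τ ^ 2) * a n := by
      refine (eLpNorm_sub_le m1 m2 (by norm_num)).trans ?_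
      rw [N_dil hτ]
    have k2 := dil_diff_test ((hφ n).1.of_le (by exact_mod_cast le_top)) (hφ n).2.1
      (fun x hx => hR x ((hφ n).2.2 hx)) hτ hτ1
    have k3 : eLpNorm (φ n) 2 volume ≤ a n + eLpNorm f 2 volume := by
      refine le_trans (le_of_eq ?_) (eLpNorm_add_le m1 h.memf.1 (by norm_num))
      congr 1; ext x; simp
    have k4 : eLpNorm (fderiv ℝ (φ n)) 2 volume ≤ b n + eLpNorm F 2 volume := by
      rw [← eLpNorm_gradient]
      refine le_trans (le_of_eq ?_) (eLpNorm_add_le ((mg n).sub h.memF.1) h.memF.1 (by norm_num))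
      congr 1; ext1 x; simp
    rw [add_comm]
    gcongr
    · exact k1
    · exact k2.trans (by gcongr)
  have hlim : Tendsto (fun n => a n + ENNReal.ofReal (τ ^ 2) * a n + ENNReal.ofReal (1 - τ) * ((a n + eLpNorm f 2 volume) + 4 * (b n + eLpNorm F 2 volume))) atTop
      (𝓝 (0 + ENNReal.ofReal (τ ^ 2) * 0 + ENNReal.ofReal (1 - τ) * ((0 + eLpNorm f 2 volume) + 4 * (0 + eLpNorm F 2 volume)))) := by
    refine Tendsto.add (Tendsto.add h1 (ENNReal.Tendsto.const_mul h1 (Or.inr ENNReal.ofReal_ne_top))) ?_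
    refine ENNReal.Tendsto.const_mul ?_ (Or.inr ENNReal.ofReal_ne_top)
    refine Tendsto.add (h1.add tendsto_const_nhds) ?_
    exact ENNReal.Tendsto.const_mul (h2.add tendsto_const_nhds) (Or.inr (by norm_num))
  simp only [mul_zero, add_zero, zero_add] at hlim
  exact ge_of_tendsto' hlim hkey

end Pool.Agent.Q175.PZ
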