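import Pool.Agent.Q175.PZ.Main

/-! Nonexistence on star-shaped domains: conclusion -/

namespace Pool.Agent.Q175.PZ

open MeasureTheory Filter Topology Set
open scoped ENNReal NNReal

lemma scale_w {τ : ℝ} (hτ : 0 < τ) {f g : E3 → ℝ} (hf : AEStronglyMeasurable f volume)
    (hg : AEStronglyMeasurable g volume) :
    ∫⁻ x, ‖dil τ f x‖ₑ ^ 2 * ‖dil τ g x‖ₑ ^ 2 ∂muw = ∫⁻ x, ‖f x‖ₑ ^ 2 * ‖g x‖ₑ ^ 2 ∂muw := by
  have e1 : ∀ x, ‖dil τ f x‖ₑ ^ 2 * ‖dil τ g x‖ₑ ^ 2 = ENNReal.ofReal (τ⁻¹ ^ 4) *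
      (‖f ((τ ^ 2)⁻¹ • x)‖ₑ ^ 2 * ‖g ((τ ^ 2)⁻¹ • x)‖ₑ ^ 2) := by
    intro x
    unfold dil
    rw [enorm_mul, enorm_mul, Real.enorm_eq_ofReal (by positivity), mul_pow, mul_pow,
      ENNReal.ofReal_pow (by positivity)]
    ring
  simp only [e1]
  rw [lintegral_const_mul' _ _ ENNReal.ofReal_ne_top,
    muw_smul (fun y => ‖f y‖ₑ ^ 2 * ‖g y‖ₑ ^ 2) ((hf.enorm.pow_const 2).mul (hg.enorm.pow_const 2))
      (t := (τ ^ 2)⁻¹) (by positivity), ← mul_assoc, ← ENNReal.ofReal_mul (by positivity)]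
  have : τ⁻¹ ^ 4 * ((τ ^ 2)⁻¹ ^ 2)⁻¹ = 1 := by field_simp
  rw [this, ENNReal.ofReal_one, one_mul]

/-- truncation sets -/
def AA (u : E3 → ℝ) (M : ℕ) : Set E3 := {x | ‖u x‖ₑ ≤ M ∧ wt x ≤ M}

/-- tail of the weighted integral -/
noncomputable def eta (u : E3 → ℝ) (M : ℕ) : ℝ≥0∞ := ∫⁻ x, (AA u M)ᶜ.indicator (fun x => ‖u x‖ₑ ^ 4) x ∂muw

lemma muw_zero : muw {(0 : E3)} = 0 := muw_ac (by simp)

lemma eta_tendsto {u : E3 → ℝ} (hu : Measurable u) (hfin : (∫⁻ x, ‖u x‖ₑ ^ 4 ∂muw) < ∞) :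
    Tendsto (fun M => eta u M) atTop (𝓝 0) := by
  unfold eta
  have hA : ∀ M, MeasurableSet (AA u M) := by
    intro M
    exact (measurableSet_le hu.enorm measurable_const).inter (measurableSet_le wt_meas measurable_const)
  have h0 : (0 : ℝ≥0∞) = ∫⁻ _, 0 ∂muw := by simp
  rw [h0]
  apply tendsto_lintegral_of_dominated_convergence (fun x => ‖u x‖ₑ ^ 4)
  · intro M
    exact (hu.enorm.pow_const 4).indicator (hA M).compl
  · intro M
    filter_upwards with x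
    exact indicator_le_self _ _ _
  · exact hfin.ne
  · have : ∀ᵐ x ∂muw, x ≠ 0 := by
      rw [ae_iff]; simpa using muw_zero
    filter_upwards [this] with x hx
    have hw : wt x ≠ ∞ := by
      unfold wt
      simp [hx]
    obtain ⟨n1, hn1⟩ := ENNReal.exists_nat_gt (r := ‖u x‖ₑ) (by simp)
    obtain ⟨n2, hn2⟩ := ENNReal.exists_nat_gt hw
    apply tendsto_const_nhds.congr'
    filter_upwards [eventually_ge_atTop (max n1 n2)] with M hM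
    rw [indicator_of_notMem]
    rw [mem_compl_iff, not_not]
    refine ⟨hn1.le.trans ?_, hn2.le.trans ?_⟩
    · exact_mod_cast (le_max_left n1 n2).trans hM
    · exact_mod_cast (le_max_right n1 n2).trans hM

lemma form_bound {u v : E3 → ℝ} (hu : Measurable u) (hv : AEStronglyMeasurable v volume) (M : ℕ) :
    ∫⁻ x, ‖v x‖ₑ ^ 2 * ‖u x‖ₑ ^ 2 ∂muw ≤ (M : ℝ≥0∞) ^ 3 * eLpNorm v 2 volume ^ 2 +
      (eta u M * ∫⁻ x, ‖v x‖ₑ ^ 4 ∂muw) ^ (1/2 : ℝ) := by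
  have hA : MeasurableSet (AA u M) :=
    (measurableSet_le hu.enorm measurable_const).inter (measurableSet_le wt_meas measurable_const)
  rw [← lintegral_add_compl (μ := muw) (fun x => ‖v x‖ₑ ^ 2 * ‖u x‖ₑ ^ 2) hA]
  have hvm : AEMeasurable (fun x => ‖v x‖ₑ) volume := hv.enorm
  have hum : AEMeasurable (fun x => ‖u x‖ₑ) volume := hu.enorm.aemeasurable
  gcongr
  · rw [← lintegral_indicator hA, muw_lint (fun x => (AA u M).indicator (fun x => ‖v x‖ₑ ^ 2 * ‖u x‖ₑ ^ 2) x) (((hvm.pow_const 2).mul (hum.pow_const 2)).indicator hA), N_sq,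
      ← lintegral_const_mul'' _ (hvm.pow_const 2)]
    apply lintegral_mono
    intro x
    simp only
    by_cases hx : x ∈ AA u M
    · rw [indicator_of_mem hx]
      calc wt x * (‖v x‖ₑ ^ 2 * ‖u x‖ₑ ^ 2) ≤ M * (‖v x‖ₑ ^ 2 * (M:ℝ≥0∞) ^ 2) := by
            gcongr
            · exact hx.2
            · exact hx.1
        _ = _ := by ring
    · rw [indicator_of_notMem hx, mul_zero]; exact zero_le
  · have h1 : (∫⁻ x in (AA u M)ᶜ, ‖v x‖ₑ ^ 2 * ‖u x‖ₑ ^ 2 ∂muw) ^ 2 ≤ eta u M * ∫⁻ x, ‖v x‖ₑ ^ 4 ∂muw := by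
      have h2 := cs (muw.restrict (AA u M)ᶜ) (f := fun x => ‖u x‖ₑ ^ 2) (g := fun x => ‖v x‖ₑ ^ 2)
        (hu.enorm.pow_const 2).aemeasurable (((hvm.mono_ac muw_ac).mono_measure Measure.restrict_le_self).pow_const 2)
      have e1 : ∀ x, ‖v x‖ₑ ^ 2 * ‖u x‖ₑ ^ 2 = ‖u x‖ₑ ^ 2 * ‖v x‖ₑ ^ 2 := by intro x; ring
      simp only [e1]
      refine h2.trans ?_
      have e2 : ∀ f : E3 → ℝ, ∀ x, (‖f x‖ₑ ^ 2) ^ 2 = ‖f x‖ₑ ^ 4 := by intro f x; ring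
      simp only [e2]
      have e3 : eta u M = ∫⁻ x in (AA u M)ᶜ, ‖u x‖ₑ ^ 4 ∂muw := by
        unfold eta; rw [lintegral_indicator hA.compl]
      rw [e3]
      gcongr
      exact Measure.restrict_le_self
    calc ∫⁻ x in (AA u M)ᶜ, ‖v x‖ₑ ^ 2 * ‖u x‖ₑ ^ 2 ∂muw
        = ((∫⁻ x in (AA u M)ᶜ, ‖v x‖ₑ ^ 2 * ‖u x‖ₑ ^ 2 ∂muw) ^ 2) ^ (1/2 : ℝ) := by
          rw [← ENNReal.rpow_natCast, ← ENNReal.rpow_mul]; norm_num
      _ ≤ _ := by gcongr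

section
variable {Ω : Set E3} (h0 : (0 : E3) ∉ Ω) (hΩ : Star Ω)

include h0 hΩ in
/-- The main inequality -/
lemma main_ineq {u : E3 → ℝ} {G : E3 → E3} (hu : IsH Ω u G)
    (hweak : ∀ ψ : E3 → ℝ,
      ContDiff ℝ ((⊤ : ℕ∞) : WithTop ℕ∞) ψ → HasCompactSupport ψ → tsupport ψ ⊆ Ω →
        ∫ x, (inner ℝ (G x) (gradient ψ x) + u x ^ 4 * ψ x - u x ^ 3 * ψ x / ‖x‖) = 0)
    (hpos : ∀ᵐ x, 0 ≤ u x) {τ : ℝ} (hτ : 0 < τ) (hτ1 : τ ≤ 1) :
    ENNReal.ofReal (1/2 * (∫ x, ‖G x - dilG τ G x‖ ^ 2) + 1/5 * (1 - τ) * ∫ x, u x ^ 5) ≤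
      (∫⁻ x, ‖u x - dil τ u x‖ₑ ^ 2 * ‖u x‖ₑ ^ 2 ∂muw) +
      ∫⁻ x, ‖u x - dil τ u x‖ₑ ^ 2 * ‖dil τ u x‖ₑ ^ 2 ∂muw := by
  have hd := isH_dil hΩ hτ hτ1 hu
  have hw := isH_sub hu hd
  obtain ⟨I1, I2, I3, hI⟩ := weak_ext h0 hu hweak hw
  have mu : AEStronglyMeasurable u (volume : Measure E3) := hu.memf.1
  have md : AEStronglyMeasurable (dil τ u) (volume : Measure E3) := hd.memf.1
  have mw : AEStronglyMeasurable (fun x => u x - dil τ u x) (volume : Measure E3) := hw.memf.1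
  rw [integral_sub (f := fun x => (inner ℝ (G x) (G x - dilG τ G x) : ℝ) + u x ^ 4 * (u x - dil τ u x)) (I1.add I2) I3,
    integral_add I1 I2] at hI
  -- squares of norms
  have S : ∀ {g : E3 → ℝ} {K : E3 → E3}, IsH Ω g K → Integrable (fun x => ‖K x‖ ^ 2) := by
    intro g K hg
    exact hg.memF.integrable_norm_pow (by norm_num)
  have hGG : ∫ x, ‖dilG τ G x‖ ^ 2 = ∫ x, ‖G x‖ ^ 2 := by
    have e1 : ∀ x, ‖dilG τ G x‖ ^ 2 = ((τ ^ 3)⁻¹) ^ 2 * ‖G ((τ ^ 2)⁻¹ • x)‖ ^ 2 := by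
      intro x; unfold dilG; rw [norm_smul, mul_pow, Real.norm_eq_abs, sq_abs]
    simp only [e1]
    rw [integral_const_mul, Measure.integral_comp_smul volume (fun y => ‖G y‖ ^ 2)]
    simp only [finrank_euclideanSpace, Fintype.card_fin, smul_eq_mul]
    rw [abs_of_pos (by positivity), ← mul_assoc]
    have : (τ ^ 3)⁻¹ ^ 2 * (((τ ^ 2)⁻¹) ^ 3)⁻¹ = 1 := by field_simp
    rw [this, one_mul]
  have h1 : ∫ x, (inner ℝ (G x) (G x - dilG τ G x) : ℝ) = 1/2 * ∫ x, ‖G x - dilG τ G x‖ ^ 2 := by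
    have e1 : ∀ x, (inner ℝ (G x) (G x - dilG τ G x) : ℝ) = 1/2 * (‖G x‖ ^ 2 - ‖dilG τ G x‖ ^ 2) + 1/2 * ‖G x - dilG τ G x‖ ^ 2 := by
      intro x
      have := norm_sub_sq_real (G x) (dilG τ G x)
      rw [this, inner_sub_right, real_inner_self_eq_norm_sq]
      ring
    simp only [e1]
    rw [integral_add (f := fun x => 1/2 * (‖G x‖ ^ 2 - ‖dilG τ G x‖ ^ 2)) (((S hu).sub (S hd)).const_mul _) ((S hw).const_mul _), integral_const_mul, integral_const_mul,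
      integral_sub (S hu) (S hd), hGG]
    ring
  -- fifth powers
  obtain ⟨u2, u4, u5, u6, uw, -⟩ := IsH.fin h0 hu
  obtain ⟨d2, d4, d5, d6, dw, -⟩ := IsH.fin h0 hd
  obtain ⟨w2, w4, w5, w6, ww, -⟩ := IsH.fin h0 hw
  have P5 : ∀ {g : E3 → ℝ}, AEStronglyMeasurable g (volume : Measure E3) → (∫⁻ x, ‖g x‖ₑ ^ 5) < ∞ →
      Integrable (fun x => g x ^ 5) := by
    intro g hg h5
    refine ⟨hg.pow 5, ?_⟩
    unfold HasFiniteIntegral
    simpa only [enorm_pow] using h5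
  have h5s : ∫ x, dil τ u x ^ 5 = τ * ∫ x, u x ^ 5 := by
    have e1 : ∀ x, dil τ u x ^ 5 = (τ⁻¹) ^ 5 * u ((τ ^ 2)⁻¹ • x) ^ 5 := by
      intro x; unfold dil; rw [mul_pow]
    simp only [e1]
    rw [integral_const_mul, Measure.integral_comp_smul volume (fun y => u y ^ 5)]
    simp only [finrank_euclideanSpace, Fintype.card_fin, smul_eq_mul]
    rw [abs_of_pos (by positivity), ← mul_assoc]
    have : τ⁻¹ ^ 5 * (((τ ^ 2)⁻¹) ^ 3)⁻¹ = τ := by field_simp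
    rw [this]
  have hdpos : ∀ᵐ x, 0 ≤ dil τ u x := by
    have := (qmp hτ).ae hpos
    filter_upwards [this] with x hx
    unfold dil; positivity
  have h2 : 1/5 * (1 - τ) * ∫ x, u x ^ 5 ≤ ∫ x, u x ^ 4 * (u x - dil τ u x) := by
    have e1 : 1/5 * (1 - τ) * ∫ x, u x ^ 5 = ∫ x, 1/5 * (u x ^ 5 - dil τ u x ^ 5) := by
      rw [integral_const_mul, integral_sub (P5 mu u5) (P5 md d5), h5s]; ring
    rw [e1]
    apply integral_mono_ae (((P5 mu u5).sub (P5 md d5)).const_mul _) I2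
    filter_upwards [hpos, hdpos] with x ha hb
    set a := u x
    set b := dil τ u x
    have : a ^ 4 * (a - b) - 1/5 * (a ^ 5 - b ^ 5) = 1/5 * (a - b) ^ 2 * (4 * a ^ 3 + 3 * a ^ 2 * b + 2 * a * b ^ 2 + b ^ 3) := by ring
    have h3 : 0 ≤ 1/5 * (a - b) ^ 2 * (4 * a ^ 3 + 3 * a ^ 2 * b + 2 * a * b ^ 2 + b ^ 3) := by positivity
    have h4 : 1/5 * (a ^ 5 - b ^ 5) ≤ a ^ 4 * (a - b) := by linarith
    exact h4
  -- the weighted terms
  have mnorm : AEStronglyMeasurable (fun x : E3 => ‖x‖⁻¹) volume := (measurable_norm.inv).aestronglyMeasurable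
  have hwt : ∀ x : E3, ‖(‖x‖⁻¹ : ℝ)‖ₑ ≤ wt x := by
    intro x
    unfold wt
    by_cases hx : x = 0
    · subst hx; simp
    · have hn : 0 < ‖x‖ := norm_pos_iff.mpr hx
      rw [← ofReal_norm, ← ofReal_norm, ← ENNReal.ofReal_inv_of_pos hn]
      apply ENNReal.ofReal_le_ofReal
      rw [norm_inv, norm_norm]
  have PW : ∀ {g : E3 → ℝ}, AEStronglyMeasurable g (volume : Measure E3) → (∫⁻ x, ‖g x‖ₑ ∂muw) < ∞ →
      Integrable (fun x => g x / ‖x‖) := by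
    intro g hg h5
    simp only [div_eq_mul_inv]
    refine ⟨hg.mul mnorm, ?_⟩
    unfold HasFiniteIntegral
    refine lt_of_le_of_lt ?_ h5
    rw [muw_lint _ hg.enorm]
    apply lintegral_mono
    intro x
    simp only
    rw [enorm_mul, mul_comm]
    gcongr
    exact hwt x
  have Q4 : ∀ {g : E3 → ℝ}, AEStronglyMeasurable g (volume : Measure E3) → (∫⁻ x, ‖g x‖ₑ ^ 4 ∂muw) < ∞ →
      Integrable (fun x => g x ^ 4 / ‖x‖) := by
    intro g hg h5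
    refine PW (hg.pow 4) ?_
    simpa only [enorm_pow] using h5
  have Q22 : ∀ {f g : E3 → ℝ}, AEStronglyMeasurable f (volume : Measure E3) → AEStronglyMeasurable g (volume : Measure E3) →
      (∫⁻ x, ‖f x‖ₑ ^ 4 ∂muw) < ∞ → (∫⁻ x, ‖g x‖ₑ ^ 4 ∂muw) < ∞ →
      Integrable (fun x => f x ^ 2 * g x ^ 2 / ‖x‖) := by
    intro f g hf hg h5 h6
    refine PW (g := fun x => f x ^ 2 * g x ^ 2) ((hf.pow 2).mul (hg.pow 2)) ?_
    simp only [enorm_mul, enorm_pow]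
    exact lt_top_of_sq (int22 (hf.mono_ac muw_ac) (hg.mono_ac muw_ac)) (ENNReal.mul_lt_top h5 h6)
  have h4s : ∫ x, dil τ u x ^ 4 / ‖x‖ = ∫ x, u x ^ 4 / ‖x‖ := by
    have e1 : ∀ x : E3, dil τ u x ^ 4 / ‖x‖ = ((τ⁻¹) ^ 4 * (τ ^ 2)⁻¹) * (u ((τ ^ 2)⁻¹ • x) ^ 4 / ‖(τ ^ 2)⁻¹ • x‖) := by
      intro x; unfold dil; rw [mul_pow, norm_smul, Real.norm_eq_abs, abs_of_pos (by positivity)]
      by_cases hx : x = 0
      · subst hx; simp
      · have : ‖x‖ ≠ 0 := norm_ne_zero_iff.mpr hx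
        field_simp
    simp only [e1]
    rw [integral_const_mul, Measure.integral_comp_smul volume (fun y => u y ^ 4 / ‖y‖)]
    simp only [finrank_euclideanSpace, Fintype.card_fin, smul_eq_mul]
    rw [abs_of_pos (by positivity), ← mul_assoc]
    have : τ⁻¹ ^ 4 * (τ ^ 2)⁻¹ * (((τ ^ 2)⁻¹) ^ 3)⁻¹ = 1 := by field_simp
    rw [this, one_mul]
  have T1 := Q22 mw mu ww uw
  have T2 := Q22 mw md ww dw
  have h3 : ∫ x, u x ^ 3 * (u x - dil τ u x) / ‖x‖ ≤ (∫ x, (u x - dil τ u x) ^ 2 * u x ^ 2 / ‖x‖) +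
      ∫ x, (u x - dil τ u x) ^ 2 * dil τ u x ^ 2 / ‖x‖ := by
    have e1 : (∫ x, (u x - dil τ u x) ^ 2 * u x ^ 2 / ‖x‖) +
      (∫ x, (u x - dil τ u x) ^ 2 * dil τ u x ^ 2 / ‖x‖) =
      ∫ x, (1/4 * (u x ^ 4 / ‖x‖ - dil τ u x ^ 4 / ‖x‖) + ((u x - dil τ u x) ^ 2 * u x ^ 2 / ‖x‖ + (u x - dil τ u x) ^ 2 * dil τ u x ^ 2 / ‖x‖)) := by
      rw [integral_add (f := fun x => 1/4 * (u x ^ 4 / ‖x‖ - dil τ u x ^ 4 / ‖x‖))
        (g := fun x => (u x - dil τ u x) ^ 2 * u x ^ 2 / ‖x‖ + (u x - dil τ u x) ^ 2 * dil τ u x ^ 2 / ‖x‖)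
        (((Q4 mu uw).sub (Q4 md dw)).const_mul _) (T1.add T2), integral_const_mul,
        integral_sub (Q4 mu uw) (Q4 md dw), h4s, integral_add T1 T2]
      ring
    rw [e1]
    apply integral_mono_ae I3 ((((Q4 mu uw).sub (Q4 md dw)).const_mul _).add (T1.add T2))
    filter_upwards [hpos, hdpos] with x ha hb
    set a := u x
    set b := dil τ u x
    have hn : 0 ≤ ‖x‖⁻¹ := by positivity
    have e2 : (1/4 * (a ^ 4 / ‖x‖ - b ^ 4 / ‖x‖) + ((a - b) ^ 2 * a ^ 2 / ‖x‖ + (a - b) ^ 2 * b ^ 2 / ‖x‖)) - a ^ 3 * (a - b) / ‖x‖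
        = (1/4 * (a - b) ^ 2 * ((a - b) ^ 2 + 2 * b ^ 2)) * ‖x‖⁻¹ := by
      simp only [div_eq_mul_inv]; ring
    have h4 : 0 ≤ (1/4 * (a - b) ^ 2 * ((a - b) ^ 2 + 2 * b ^ 2)) * ‖x‖⁻¹ := by positivity
    have h5 : a ^ 3 * (a - b) / ‖x‖ ≤ 1/4 * (a ^ 4 / ‖x‖ - b ^ 4 / ‖x‖) + ((a - b) ^ 2 * a ^ 2 / ‖x‖ + (a - b) ^ 2 * b ^ 2 / ‖x‖) := by
      linarith
    exact h5
  have hfinal : 1/2 * (∫ x, ‖G x - dilG τ G x‖ ^ 2) + 1/5 * (1 - τ) * (∫ x, u x ^ 5) ≤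
      (∫ x, (u x - dil τ u x) ^ 2 * u x ^ 2 / ‖x‖) + ∫ x, (u x - dil τ u x) ^ 2 * dil τ u x ^ 2 / ‖x‖ := by
    rw [h1] at hI
    linarith
  refine (ENNReal.ofReal_le_ofReal hfinal).trans ?_
  refine ENNReal.ofReal_add_le.trans ?_
  have PQ : ∀ {g : E3 → ℝ}, AEStronglyMeasurable g (volume : Measure E3) →
      Integrable (fun x => (u x - dil τ u x) ^ 2 * g x ^ 2 / ‖x‖) →
      ENNReal.ofReal (∫ x, (u x - dil τ u x) ^ 2 * g x ^ 2 / ‖x‖) ≤ ∫⁻ x, ‖u x - dil τ u x‖ₑ ^ 2 * ‖g x‖ₑ ^ 2 ∂muw := by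
    intro g hg hgi
    rw [ofReal_integral_eq_lintegral_ofReal hgi (Eventually.of_forall fun x => by positivity),
      muw_lint (fun x => ‖u x - dil τ u x‖ₑ ^ 2 * ‖g x‖ₑ ^ 2) ((mw.enorm.pow_const 2).mul (hg.enorm.pow_const 2))]
    apply lintegral_mono
    intro x
    simp only
    rw [div_eq_mul_inv, mul_comm, ENNReal.ofReal_mul (by positivity), ENNReal.ofReal_mul (by positivity)]
    have hsq : ∀ a : ℝ, ENNReal.ofReal (a ^ 2) = ‖a‖ₑ ^ 2 := by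
      intro a
      rw [← sq_abs, ENNReal.ofReal_pow (abs_nonneg a), ← Real.norm_eq_abs, ofReal_norm]
    rw [hsq, hsq]
    gcongr
    have := hwt x
    rwa [Real.enorm_eq_ofReal (by positivity)] at this
  gcongr
  · exact PQ mu T1
  · exact PQ md T2

include h0 hΩ in
/-- No nontrivial nonnegative solution on a bounded domain which is star-shaped with respect to
the origin. -/
lemma nonexistence (hR : ∀ x ∈ Ω, ‖x‖ ≤ 2) {u : E3 → ℝ} {G : E3 → E3} (hu : IsH Ω u G)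
    (hweak : ∀ ψ : E3 → ℝ,
      ContDiff ℝ ((⊤ : ℕ∞) : WithTop ℕ∞) ψ → HasCompactSupport ψ → tsupport ψ ⊆ Ω →
        ∫ x, (inner ℝ (G x) (gradient ψ x) + u x ^ 4 * ψ x - u x ^ 3 * ψ x / ‖x‖) = 0)
    (hpos : ∀ᵐ x, 0 ≤ u x) : ∫ x, u x ^ 5 ≤ 0 := by
  have mu : AEStronglyMeasurable u (volume : Measure E3) := hu.memf.1
  obtain ⟨u2, u4, u5, u6, uw, -⟩ := IsH.fin h0 hu
  -- measurable representative
  set u' := mu.mk u with hu'
  have hmeas : Measurable u' := mu.stronglyMeasurable_mk.measurable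
  have hae : u =ᵐ[muw] u' := muw_ac.ae_le mu.ae_eq_mk
  have uw' : (∫⁻ x, ‖u' x‖ₑ ^ 4 ∂muw) < ∞ := by
    refine lt_of_le_of_lt (le_of_eq ?_) uw
    apply lintegral_congr_ae
    filter_upwards [hae] with x hx
    rw [hx]
  have hswap : ∀ v : E3 → ℝ, ∫⁻ x, ‖v x‖ₑ ^ 2 * ‖u x‖ₑ ^ 2 ∂muw = ∫⁻ x, ‖v x‖ₑ ^ 2 * ‖u' x‖ₑ ^ 2 ∂muw := by
    intro v
    apply lintegral_congr_ae
    filter_upwards [hae] with x hx
    rw [hx]
  -- choice of the truncation level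
  have hlim : Tendsto (fun M => eta u' M * HC) atTop (𝓝 0) := by
    have := ENNReal.Tendsto.mul_const (b := HC) (eta_tendsto hmeas uw') (Or.inr HC_top)
    simpa using this
  obtain ⟨M, hM⟩ := (hlim.eventually_lt_const (show (0:ℝ≥0∞) < 1/16 by norm_num)).exists
  -- the constant
  set K : ℝ≥0∞ := eLpNorm u 2 volume + 4 * eLpNorm G 2 volume with hK
  have hKtop : K ≠ ∞ := by
    rw [hK]
    exact ENNReal.add_ne_top.mpr ⟨hu.memf.2.ne, ENNReal.mul_ne_top (by norm_num) hu.memF.2.ne⟩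
  set C0 : ℝ := 17 * (M:ℝ) ^ 3 * K.toReal ^ 2 with hC0
  have hkey : ∀ τ : ℝ, 1/2 ≤ τ → τ < 1 → 1/5 * (∫ x, u x ^ 5) ≤ C0 * (1 - τ) := by
    intro τ hτ2 hτ1
    have hτ : 0 < τ := by linarith
    have hd := isH_dil hΩ hτ hτ1.le hu
    have hw := isH_sub hu hd
    have mw : AEStronglyMeasurable (fun x => u x - dil τ u x) (volume : Measure E3) := hw.memf.1
    set w : E3 → ℝ := fun x => u x - dil τ u x with hwdef
    have hmain := main_ineq h0 hΩ hu hweak hpos hτ hτ1.le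
    -- bound of the L^4 norm
    have b4 : eta u' M * ∫⁻ x, ‖w x‖ₑ ^ 4 ∂muw ≤ (1/16) * eLpNorm (fun x => G x - dilG τ G x) 2 volume ^ 4 := by
      calc eta u' M * ∫⁻ x, ‖w x‖ₑ ^ 4 ∂muw ≤ eta u' M * (HC * eLpNorm (fun x => G x - dilG τ G x) 2 volume ^ 4) := by
            gcongr; exact w_bound h0 hw
        _ = (eta u' M * HC) * eLpNorm (fun x => G x - dilG τ G x) 2 volume ^ 4 := by ring
        _ ≤ _ := by gcongr
    have hroot : ∀ a : ℝ≥0∞, ((1/16) * a ^ 4) ^ (1/2 : ℝ) = (1/4) * a ^ 2 := by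
      intro a
      have e1 : (1/16 : ℝ≥0∞) * a ^ 4 = ((1/4) * a ^ 2) ^ 2 := by
        rw [mul_pow, ← pow_mul]
        congr 1
        rw [one_div, one_div, ← ENNReal.inv_pow]
        norm_num
      rw [e1, ← ENNReal.rpow_natCast, ← ENNReal.rpow_mul]
      norm_num
    have R1 : ∫⁻ x, ‖w x‖ₑ ^ 2 * ‖u x‖ₑ ^ 2 ∂muw ≤ (M : ℝ≥0∞) ^ 3 * eLpNorm w 2 volume ^ 2 +
        (1/4) * eLpNorm (fun x => G x - dilG τ G x) 2 volume ^ 2 := by
      rw [hswap]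
      refine (form_bound hmeas mw M).trans ?_
      gcongr
      rw [← hroot]
      gcongr
    have R2 : ∫⁻ x, ‖w x‖ₑ ^ 2 * ‖dil τ u x‖ₑ ^ 2 ∂muw ≤ (M : ℝ≥0∞) ^ 3 * (16 * eLpNorm w 2 volume ^ 2) +
        (1/4) * eLpNorm (fun x => G x - dilG τ G x) 2 volume ^ 2 := by
      set v : E3 → ℝ := dil τ⁻¹ w with hv
      have hτi : 0 < τ⁻¹ := by positivity
      have hvm : AEStronglyMeasurable v (volume : Measure E3) := aesm_dil hτi mw
      have hwv : ∀ x, w x = dil τ v x := by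
        intro x
        rw [hv]
        unfold dil
        rw [smul_smul]
        have : ((τ⁻¹) ^ 2)⁻¹ * (τ ^ 2)⁻¹ = 1 := by field_simp
        rw [this, one_smul]
        field_simp
      have e1 : ∫⁻ x, ‖w x‖ₑ ^ 2 * ‖dil τ u x‖ₑ ^ 2 ∂muw = ∫⁻ x, ‖v x‖ₑ ^ 2 * ‖u x‖ₑ ^ 2 ∂muw := by
        rw [← scale_w hτ hvm mu]
        apply lintegral_congr
        intro x
        rw [hwv x]
      have e2 : ∫⁻ x, ‖v x‖ₑ ^ 4 ∂muw = ∫⁻ x, ‖w x‖ₑ ^ 4 ∂muw := by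
        have h1 := scale_w hτi mw mw
        have e3 : ∀ f : E3 → ℝ, ∀ x, ‖f x‖ₑ ^ 2 * ‖f x‖ₑ ^ 2 = ‖f x‖ₑ ^ 4 := by intro f x; ring
        simp only [e3] at h1
        exact h1
      have e3 : eLpNorm v 2 volume ^ 2 ≤ 16 * eLpNorm w 2 volume ^ 2 := by
        rw [hv, N_dil hτi, mul_pow]
        gcongr
        rw [← ENNReal.ofReal_pow (by positivity)]
        have h1 : (τ⁻¹ ^ 2) ^ 2 ≤ (16:ℝ) := by
          have h2 : τ⁻¹ ≤ 2 := by
            rw [inv_le_comm₀ hτ two_pos]; linarith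
          calc (τ⁻¹ ^ 2) ^ 2 ≤ (2 ^ 2) ^ 2 := by gcongr
            _ = 16 := by norm_num
        calc ENNReal.ofReal ((τ⁻¹ ^ 2) ^ 2) ≤ ENNReal.ofReal 16 := ENNReal.ofReal_le_ofReal h1
          _ = 16 := by norm_num
      rw [e1, hswap]
      refine (form_bound hmeas hvm M).trans ?_
      rw [e2]
      gcongr
      rw [← hroot]
      gcongr
    have hdd := dil_diff hR hu hτ hτ1.le
    have hXN : eLpNorm (fun x => G x - dilG τ G x) 2 volume ^ 2 = ENNReal.ofReal (∫ x, ‖G x - dilG τ G x‖ ^ 2) := by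
      rw [N_sq, ofReal_integral_eq_lintegral_ofReal (hw.memF.integrable_norm_pow (by norm_num))
        (Eventually.of_forall fun x => by positivity)]
      apply lintegral_congr
      intro x
      rw [ENNReal.ofReal_pow (norm_nonneg _), ofReal_norm]
    set X : ℝ := ∫ x, ‖G x - dilG τ G x‖ ^ 2 with hX
    have hX0 : 0 ≤ X := integral_nonneg fun x => by positivity
    have htot : ENNReal.ofReal (1/2 * X + 1/5 * (1 - τ) * ∫ x, u x ^ 5) ≤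
        ENNReal.ofReal (C0 * (1 - τ) ^ 2 + 1/2 * X) := by
      refine hmain.trans ?_
      refine (add_le_add R1 R2).trans ?_
      have hw2 : eLpNorm w 2 volume ^ 2 ≤ ENNReal.ofReal ((1 - τ) ^ 2 * K.toReal ^ 2) := by
        rw [ENNReal.ofReal_mul (by positivity), ENNReal.ofReal_pow (by linarith), ENNReal.ofReal_pow (by positivity),
          ENNReal.ofReal_toReal hKtop, ← mul_pow]
        gcongr
      have e1 : (M : ℝ≥0∞) ^ 3 * eLpNorm w 2 volume ^ 2 + (1/4) * eLpNorm (fun x => G x - dilG τ G x) 2 volume ^ 2 +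
          ((M : ℝ≥0∞) ^ 3 * (16 * eLpNorm w 2 volume ^ 2) + (1/4) * eLpNorm (fun x => G x - dilG τ G x) 2 volume ^ 2)
          = 17 * (M : ℝ≥0∞) ^ 3 * eLpNorm w 2 volume ^ 2 + (1/4 + 1/4) * eLpNorm (fun x => G x - dilG τ G x) 2 volume ^ 2 := by
        ring
      rw [e1, hXN]
      have e2 : (1/4 + 1/4 : ℝ≥0∞) = ENNReal.ofReal (1/2) := by
        have h3 : (1/4 : ℝ≥0∞) = ENNReal.ofReal (1/4) := by
          rw [ENNReal.ofReal_div_of_pos (by norm_num)]; norm_num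
        rw [h3, ← ENNReal.ofReal_add (by norm_num) (by norm_num)]
        norm_num
      rw [e2, ← ENNReal.ofReal_mul (by norm_num), ENNReal.ofReal_add (by rw [hC0]; positivity) (by positivity)]
      gcongr
      calc 17 * (M : ℝ≥0∞) ^ 3 * eLpNorm w 2 volume ^ 2 ≤ 17 * (M : ℝ≥0∞) ^ 3 * ENNReal.ofReal ((1 - τ) ^ 2 * K.toReal ^ 2) := by
            gcongr
        _ = ENNReal.ofReal (C0 * (1 - τ) ^ 2) := by
          have h3 : (17 * (M : ℝ≥0∞) ^ 3) = ENNReal.ofReal (17 * (M:ℝ) ^ 3) := by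
            rw [ENNReal.ofReal_mul (by norm_num), ENNReal.ofReal_pow (by positivity), ENNReal.ofReal_natCast]
            norm_num
          rw [h3, ← ENNReal.ofReal_mul (by positivity)]
          congr 1
          rw [hC0]; ring
    have hnn : 0 ≤ C0 * (1 - τ) ^ 2 + 1/2 * X := by rw [hC0]; positivity
    have hreal := (ENNReal.ofReal_le_ofReal_iff hnn).mp htot
    have h1τ : 0 < 1 - τ := by linarith
    have h5 : (1 - τ) * (1/5 * ∫ x, u x ^ 5) ≤ (1 - τ) * (C0 * (1 - τ)) := by nlinarith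
    exact le_of_mul_le_mul_left h5 h1τ
  have hlim2 : Tendsto (fun τ : ℝ => C0 * (1 - τ)) (𝓝[<] 1) (𝓝 0) := by
    have hc : Continuous (fun τ : ℝ => C0 * (1 - τ)) := by fun_prop
    have := (hc.tendsto 1).mono_left (nhdsWithin_le_nhds (s := Iio 1))
    simpa using this
  have hle : 1/5 * (∫ x, u x ^ 5) ≤ 0 := by
    refine ge_of_tendsto hlim2 ?_
    filter_upwards [self_mem_nhdsWithin, mem_nhdsWithin_of_mem_nhds (Ioi_mem_nhds (show (1/2:ℝ) < 1 by norm_num))] with τ h1 h2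
    exact hkey τ (le_of_lt h2) h1
  linarith

end

end Pool.Agent.Q175.PZ
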