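import Pool.Agent.Q175.PZ.Dil

/-! Nonexistence on star-shaped domains: the dilation argument -/

namespace Pool.Agent.Q175.PZ

open MeasureTheory Filter Topology Set
open scoped ENNReal NNReal

/-! ### Hoelder-type bounds -/

lemma int4 {f : E3 → ℝ} (hf : AEStronglyMeasurable f volume) :
    (∫⁻ x, ‖f x‖ₑ ^ 4) ^ 2 ≤ (∫⁻ x, ‖f x‖ₑ ^ 2) * ∫⁻ x, ‖f x‖ₑ ^ 6 := by
  have hm := hf.enorm
  have e1 : ∀ x, ‖f x‖ₑ ^ 4 = ‖f x‖ₑ * ‖f x‖ₑ ^ 3 := by intro x; ring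
  have e2 : ∀ x, ‖f x‖ₑ ^ 6 = (‖f x‖ₑ ^ 3) ^ 2 := by intro x; ring
  simp only [e1, e2]
  exact cs volume hm (hm.pow_const 3)

lemma int5 {f : E3 → ℝ} (hf : AEStronglyMeasurable f volume) :
    (∫⁻ x, ‖f x‖ₑ ^ 5) ^ 2 ≤ (∫⁻ x, ‖f x‖ₑ ^ 4) * ∫⁻ x, ‖f x‖ₑ ^ 6 := by
  have hm := hf.enorm
  have e1 : ∀ x, ‖f x‖ₑ ^ 5 = ‖f x‖ₑ ^ 2 * ‖f x‖ₑ ^ 3 := by intro x; ring
  have e2 : ∀ x, ‖f x‖ₑ ^ 6 = (‖f x‖ₑ ^ 3) ^ 2 := by intro x; ring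
  have e3 : ∀ x, ‖f x‖ₑ ^ 4 = (‖f x‖ₑ ^ 2) ^ 2 := by intro x; ring
  simp only [e1, e2, e3]
  exact cs volume (hm.pow_const 2) (hm.pow_const 3)

lemma int22 {μ : Measure E3} {f g : E3 → ℝ} (hf : AEStronglyMeasurable f μ) (hg : AEStronglyMeasurable g μ) :
    (∫⁻ x, ‖f x‖ₑ ^ 2 * ‖g x‖ₑ ^ 2 ∂μ) ^ 2 ≤ (∫⁻ x, ‖f x‖ₑ ^ 4 ∂μ) * ∫⁻ x, ‖g x‖ₑ ^ 4 ∂μ := by
  have e3 : ∀ x, ‖f x‖ₑ ^ 4 = (‖f x‖ₑ ^ 2) ^ 2 := by intro x; ring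
  have e4 : ∀ x, ‖g x‖ₑ ^ 4 = (‖g x‖ₑ ^ 2) ^ 2 := by intro x; ring
  simp only [e3, e4]
  exact cs μ (hf.enorm.pow_const 2) (hg.enorm.pow_const 2)

lemma int41 {f g : E3 → ℝ} (hf : AEStronglyMeasurable f volume) (hg : AEStronglyMeasurable g volume) :
    (∫⁻ x, ‖f x‖ₑ ^ 4 * ‖g x‖ₑ) ^ 2 ≤ (∫⁻ x, ‖f x‖ₑ ^ 6) * ∫⁻ x, ‖f x‖ₑ ^ 2 * ‖g x‖ₑ ^ 2 := by
  have e1 : ∀ x, ‖f x‖ₑ ^ 4 * ‖g x‖ₑ = ‖f x‖ₑ ^ 3 * (‖f x‖ₑ * ‖g x‖ₑ) := by intro x; ring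
  have e2 : ∀ x, ‖f x‖ₑ ^ 6 = (‖f x‖ₑ ^ 3) ^ 2 := by intro x; ring
  have e3 : ∀ x, ‖f x‖ₑ ^ 2 * ‖g x‖ₑ ^ 2 = (‖f x‖ₑ * ‖g x‖ₑ) ^ 2 := by intro x; ring
  simp only [e1, e2, e3]
  exact cs volume (hf.enorm.pow_const 3) (hf.enorm.mul hg.enorm)

lemma int31 {μ : Measure E3} {f g : E3 → ℝ} (hf : AEStronglyMeasurable f μ) (hg : AEStronglyMeasurable g μ) :
    (∫⁻ x, ‖f x‖ₑ ^ 3 * ‖g x‖ₑ ∂μ) ^ 2 ≤ (∫⁻ x, ‖f x‖ₑ ^ 4 ∂μ) * ∫⁻ x, ‖f x‖ₑ ^ 2 * ‖g x‖ₑ ^ 2 ∂μ := by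
  have e1 : ∀ x, ‖f x‖ₑ ^ 3 * ‖g x‖ₑ = ‖f x‖ₑ ^ 2 * (‖f x‖ₑ * ‖g x‖ₑ) := by intro x; ring
  have e2 : ∀ x, ‖f x‖ₑ ^ 4 = (‖f x‖ₑ ^ 2) ^ 2 := by intro x; ring
  have e3 : ∀ x, ‖f x‖ₑ ^ 2 * ‖g x‖ₑ ^ 2 = (‖f x‖ₑ * ‖g x‖ₑ) ^ 2 := by intro x; ring
  simp only [e1, e2, e3]
  exact cs μ (hf.enorm.pow_const 2) (hf.enorm.mul hg.enorm)

lemma lt_top_of_sq {a b : ℝ≥0∞} (h : a ^ 2 ≤ b) (hb : b < ∞) : a < ∞ := by
  by_contra h0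
  rw [not_lt, top_le_iff] at h0
  rw [h0] at h
  have : (∞ : ℝ≥0∞) ^ 2 = ∞ := by simp
  rw [this, top_le_iff] at h
  exact hb.ne h

lemma tendsto_zero_of_sq {a b : ℕ → ℝ≥0∞} (h : ∀ n, a n ^ 2 ≤ b n) (hb : Tendsto b atTop (𝓝 0)) :
    Tendsto a atTop (𝓝 0) := by
  have h1 : Tendsto (fun n => a n ^ 2) atTop (𝓝 0) :=
    tendsto_of_tendsto_of_tendsto_of_le_of_le tendsto_const_nhds hb (fun _ => zero_le) h
  have h2 : Tendsto (fun n => (a n ^ 2) ^ (1/2 : ℝ)) atTop (𝓝 (0 ^ (1/2 : ℝ))) :=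
    (ENNReal.continuous_rpow_const.tendsto 0).comp h1
  rw [ENNReal.zero_rpow_of_pos (by norm_num)] at h2
  refine h2.congr fun n => ?_
  rw [← ENNReal.rpow_natCast, ← ENNReal.rpow_mul]
  norm_num

section
variable {Ω : Set E3} (h0 : (0 : E3) ∉ Ω)

include h0 in
lemma IsH.fin {f : E3 → ℝ} {F : E3 → E3} (h : IsH Ω f F) :
    (∫⁻ x, ‖f x‖ₑ ^ 2) < ∞ ∧ (∫⁻ x, ‖f x‖ₑ ^ 4) < ∞ ∧ (∫⁻ x, ‖f x‖ₑ ^ 5) < ∞ ∧
    (∫⁻ x, ‖f x‖ₑ ^ 6) < ∞ ∧ (∫⁻ x, ‖f x‖ₑ ^ 4 ∂muw) < ∞ ∧ (∫⁻ x, ‖F x‖ₑ ^ 2) < ∞ := by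
  have h2 : (∫⁻ x, ‖f x‖ₑ ^ 2) < ∞ := by
    rw [← N_sq]; exact ENNReal.pow_lt_top h.memf.2
  have h6 : (∫⁻ x, ‖f x‖ₑ ^ 6) < ∞ :=
    (six_bound h).trans_lt (ENNReal.mul_lt_top SC_top.lt_top (ENNReal.pow_lt_top h.memF.2))
  have h4 : (∫⁻ x, ‖f x‖ₑ ^ 4) < ∞ := lt_top_of_sq (int4 h.memf.1) (ENNReal.mul_lt_top h2 h6)
  have h5 : (∫⁻ x, ‖f x‖ₑ ^ 5) < ∞ := lt_top_of_sq (int5 h.memf.1) (ENNReal.mul_lt_top h4 h6)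
  refine ⟨h2, h4, h5, h6, ?_, ?_⟩
  · exact (w_bound h0 h).trans_lt (ENNReal.mul_lt_top HC_top.lt_top (ENNReal.pow_lt_top h.memF.2))
  · rw [← N_sq]; exact ENNReal.pow_lt_top h.memF.2

include h0 in
/-- the weak equation for all functions of the class -/
lemma weak_ext {u : E3 → ℝ} {G : E3 → E3} (hu : IsH Ω u G)
    (hweak : ∀ ψ : E3 → ℝ,
      ContDiff ℝ ((⊤ : ℕ∞) : WithTop ℕ∞) ψ → HasCompactSupport ψ → tsupport ψ ⊆ Ω →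
        ∫ x, (inner ℝ (G x) (gradient ψ x) + u x ^ 4 * ψ x - u x ^ 3 * ψ x / ‖x‖) = 0)
    {f : E3 → ℝ} {F : E3 → E3} (hf : IsH Ω f F) :
    Integrable (fun x => (inner ℝ (G x) (F x) : ℝ)) ∧ Integrable (fun x => u x ^ 4 * f x) ∧
    Integrable (fun x => u x ^ 3 * f x / ‖x‖) ∧
    ∫ x, (inner ℝ (G x) (F x) + u x ^ 4 * f x - u x ^ 3 * f x / ‖x‖) = 0 := by
  have hmu : AEStronglyMeasurable u (volume : Measure E3) := hu.memf.1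
  have hmG : AEStronglyMeasurable G (volume : Measure E3) := hu.memF.1
  obtain ⟨u2, u4, u5, u6, uw, -⟩ := IsH.fin h0 hu
  -- three bounds, valid for every member of the class
  have B1 : ∀ {g : E3 → ℝ} {K : E3 → E3}, IsH Ω g K →
      (∫⁻ x, ‖(inner ℝ (G x) (K x) : ℝ)‖ₑ) ^ 2 ≤ eLpNorm G 2 volume ^ 2 * eLpNorm K 2 volume ^ 2 := by
    intro g K hg
    rw [N_sq, N_sq]
    refine le_trans ?_ (cs volume hmG.enorm hg.memF.1.enorm)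
    gcongr with x
    rw [← ofReal_norm, ← ofReal_norm, ← ofReal_norm, ← ENNReal.ofReal_mul (norm_nonneg _)]
    exact ENNReal.ofReal_le_ofReal (norm_inner_le_norm _ _)
  have B2 : ∀ {g : E3 → ℝ} {K : E3 → E3}, IsH Ω g K →
      (∫⁻ x, ‖u x ^ 4 * g x‖ₑ) ^ 2 ≤ (∫⁻ x, ‖u x‖ₑ ^ 6) * ∫⁻ x, ‖u x‖ₑ ^ 2 * ‖g x‖ₑ ^ 2 := by
    intro g K hg
    refine le_trans (le_of_eq ?_) (int41 hmu hg.memf.1)
    congr 2; ext x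
    rw [enorm_mul, enorm_pow]
  have B2' : ∀ {g : E3 → ℝ} {K : E3 → E3}, IsH Ω g K →
      (∫⁻ x, ‖u x‖ₑ ^ 2 * ‖g x‖ₑ ^ 2) ^ 2 ≤ (∫⁻ x, ‖u x‖ₑ ^ 4) * ∫⁻ x, ‖g x‖ₑ ^ 4 := fun hg =>
    int22 hmu hg.memf.1
  have hw3 : ∀ {g : E3 → ℝ}, AEStronglyMeasurable g (volume : Measure E3) →
      ∫⁻ x, ‖u x ^ 3 * g x / ‖x‖‖ₑ ≤ ∫⁻ x, ‖u x‖ₑ ^ 3 * ‖g x‖ₑ ∂muw := by
    intro g hg
    rw [muw_lint (fun x => ‖u x‖ₑ ^ 3 * ‖g x‖ₑ) ((hmu.enorm.pow_const 3).mul hg.enorm)]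
    apply lintegral_mono
    intro x
    simp only
    rw [div_eq_mul_inv, enorm_mul, enorm_mul, enorm_pow, mul_comm]
    gcongr
    unfold wt
    by_cases hx : x = 0
    · subst hx; simp
    · have hn : 0 < ‖x‖ := norm_pos_iff.mpr hx
      rw [← ofReal_norm, ← ofReal_norm, ← ENNReal.ofReal_inv_of_pos hn]
      apply ENNReal.ofReal_le_ofReal
      rw [norm_inv, norm_norm]
  have B3 : ∀ {g : E3 → ℝ} {K : E3 → E3}, IsH Ω g K →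
      (∫⁻ x, ‖u x‖ₑ ^ 3 * ‖g x‖ₑ ∂muw) ^ 2 ≤ (∫⁻ x, ‖u x‖ₑ ^ 4 ∂muw) * ∫⁻ x, ‖u x‖ₑ ^ 2 * ‖g x‖ₑ ^ 2 ∂muw :=
    fun hg => int31 (hmu.mono_ac muw_ac) (hg.memf.1.mono_ac muw_ac)
  have B3' : ∀ {g : E3 → ℝ} {K : E3 → E3}, IsH Ω g K →
      (∫⁻ x, ‖u x‖ₑ ^ 2 * ‖g x‖ₑ ^ 2 ∂muw) ^ 2 ≤ (∫⁻ x, ‖u x‖ₑ ^ 4 ∂muw) * ∫⁻ x, ‖g x‖ₑ ^ 4 ∂muw :=
    fun hg => int22 (hmu.mono_ac muw_ac) (hg.memf.1.mono_ac muw_ac)
  -- integrability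
  have J1 : ∀ {g : E3 → ℝ} {K : E3 → E3}, IsH Ω g K → Integrable (fun x => (inner ℝ (G x) (K x) : ℝ)) := by
    intro g K hg
    refine ⟨hmG.inner hg.memF.1, ?_⟩
    exact lt_top_of_sq (B1 hg) (ENNReal.mul_lt_top (ENNReal.pow_lt_top hu.memF.2) (ENNReal.pow_lt_top hg.memF.2))
  have J2 : ∀ {g : E3 → ℝ} {K : E3 → E3}, IsH Ω g K → Integrable (fun x => u x ^ 4 * g x) := by
    intro g K hg
    obtain ⟨g2, g4, g5, g6, gw, -⟩ := IsH.fin h0 hg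
    refine ⟨(hmu.pow 4).mul hg.memf.1, ?_⟩
    exact lt_top_of_sq (B2 hg) (ENNReal.mul_lt_top u6 (lt_top_of_sq (B2' hg) (ENNReal.mul_lt_top u4 g4)))
  have J3 : ∀ {g : E3 → ℝ} {K : E3 → E3}, IsH Ω g K → Integrable (fun x => u x ^ 3 * g x / ‖x‖) := by
    intro g K hg
    obtain ⟨g2, g4, g5, g6, gw, -⟩ := IsH.fin h0 hg
    have hinv : AEStronglyMeasurable (fun x : E3 => ‖x‖⁻¹) volume :=
      (measurable_norm.inv).aestronglyMeasurable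
    have hms : AEStronglyMeasurable (fun x => u x ^ 3 * g x / ‖x‖) volume := by
      simp only [div_eq_mul_inv]
      exact ((hmu.pow 3).mul hg.memf.1).mul hinv
    refine ⟨hms, ?_⟩
    exact (hw3 hg.memf.1).trans_lt (lt_top_of_sq (B3 hg) (ENNReal.mul_lt_top uw (lt_top_of_sq (B3' hg) (ENNReal.mul_lt_top uw gw))))
  refine ⟨J1 hf, J2 hf, J3 hf, ?_⟩
  obtain ⟨φ, hφ, h1, h2⟩ := hf.seq
  have hT : ∀ n, IsH Ω (φ n) (gradient (φ n)) := fun n => isH_test (hφ n)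
  have hD : ∀ n, IsH Ω (fun x => φ n x - f x) (fun x => gradient (φ n) x - F x) := fun n => isH_sub (hT n) hf
  have hN2 : Tendsto (fun n => eLpNorm (fun x => gradient (φ n) x - F x) 2 volume ^ 2) atTop (𝓝 0) := by
    have := ((ENNReal.continuous_pow 2).tendsto 0).comp h2
    simpa [Function.comp_def] using this
  -- each difference tends to zero
  have C1 : Tendsto (fun n => ∫⁻ x, ‖(inner ℝ (G x) (gradient (φ n) x - F x) : ℝ)‖ₑ) atTop (𝓝 0) := by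
    apply tendsto_zero_of_sq (fun n => B1 (hD n))
    have := ENNReal.Tendsto.const_mul (a := eLpNorm G 2 volume ^ 2) hN2 (Or.inr (ENNReal.pow_ne_top hu.memF.2.ne))
    simpa using this
  have L2 : Tendsto (fun n => ∫⁻ x, ‖φ n x - f x‖ₑ ^ 2) atTop (𝓝 0) := by
    have : Tendsto (fun n => eLpNorm (fun x => φ n x - f x) 2 volume ^ 2) atTop (𝓝 0) := by
      have := ((ENNReal.continuous_pow 2).tendsto 0).comp h1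
      simpa [Function.comp_def] using this
    simpa only [N_sq] using this
  have hpow : ∀ k : ℕ, k ≠ 0 → Tendsto (fun n => eLpNorm (fun x => gradient (φ n) x - F x) 2 volume ^ k) atTop (𝓝 0) := by
    intro k hk
    have := ((ENNReal.continuous_pow k).tendsto 0).comp h2
    simpa [hk, Function.comp_def] using this
  have L6 : Tendsto (fun n => ∫⁻ x, ‖φ n x - f x‖ₑ ^ 6) atTop (𝓝 0) := by
    refine tendsto_of_tendsto_of_tendsto_of_le_of_le tendsto_const_nhds ?_ (fun _ => zero_le) (fun n => six_bound (hD n))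
    have := ENNReal.Tendsto.const_mul (a := SC) (hpow 6 (by norm_num)) (Or.inr SC_top)
    simpa using this
  have L4 : Tendsto (fun n => ∫⁻ x, ‖φ n x - f x‖ₑ ^ 4) atTop (𝓝 0) := by
    apply tendsto_zero_of_sq (fun n => int4 (hD n).memf.1)
    have := ENNReal.Tendsto.mul L2 (Or.inr (by simp)) L6 (Or.inr (by simp))
    simpa using this
  have LW : Tendsto (fun n => ∫⁻ x, ‖φ n x - f x‖ₑ ^ 4 ∂muw) atTop (𝓝 0) := by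
    refine tendsto_of_tendsto_of_tendsto_of_le_of_le tendsto_const_nhds ?_ (fun _ => zero_le) (fun n => w_bound h0 (hD n))
    have := ENNReal.Tendsto.const_mul (a := HC) (hpow 4 (by norm_num)) (Or.inr HC_top)
    simpa using this
  have C2 : Tendsto (fun n => ∫⁻ x, ‖u x ^ 4 * (φ n x - f x)‖ₑ) atTop (𝓝 0) := by
    apply tendsto_zero_of_sq (fun n => B2 (hD n))
    have k1 : Tendsto (fun n => ∫⁻ x, ‖u x‖ₑ ^ 2 * ‖φ n x - f x‖ₑ ^ 2) atTop (𝓝 0) := by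
      apply tendsto_zero_of_sq (fun n => B2' (hD n))
      have := ENNReal.Tendsto.const_mul (a := ∫⁻ x, ‖u x‖ₑ ^ 4) L4 (Or.inr u4.ne)
      simpa using this
    have := ENNReal.Tendsto.const_mul (a := ∫⁻ x, ‖u x‖ₑ ^ 6) k1 (Or.inr u6.ne)
    simpa using this
  have C3 : Tendsto (fun n => ∫⁻ x, ‖u x ^ 3 * (φ n x - f x) / ‖x‖‖ₑ) atTop (𝓝 0) := by
    refine tendsto_of_tendsto_of_tendsto_of_le_of_le tendsto_const_nhds ?_ (fun _ => zero_le) (fun n => hw3 (hD n).memf.1)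
    apply tendsto_zero_of_sq (fun n => B3 (hD n))
    have k1 : Tendsto (fun n => ∫⁻ x, ‖u x‖ₑ ^ 2 * ‖φ n x - f x‖ₑ ^ 2 ∂muw) atTop (𝓝 0) := by
      apply tendsto_zero_of_sq (fun n => B3' (hD n))
      have := ENNReal.Tendsto.const_mul (a := ∫⁻ x, ‖u x‖ₑ ^ 4 ∂muw) LW (Or.inr uw.ne)
      simpa using this
    have := ENNReal.Tendsto.const_mul (a := ∫⁻ x, ‖u x‖ₑ ^ 4 ∂muw) k1 (Or.inr uw.ne)
    simpa using this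
  -- convergence of the integrals
  have hI : ∀ {g : E3 → ℝ} {K : E3 → E3}, IsH Ω g K →
      Integrable (fun x => inner ℝ (G x) (K x) + u x ^ 4 * g x - u x ^ 3 * g x / ‖x‖) :=
    fun hg => ((J1 hg).add (J2 hg)).sub (J3 hg)
  have hlim : Tendsto (fun n => ∫ x, (inner ℝ (G x) (gradient (φ n) x) + u x ^ 4 * φ n x - u x ^ 3 * φ n x / ‖x‖)) atTop
      (𝓝 (∫ x, (inner ℝ (G x) (F x) + u x ^ 4 * f x - u x ^ 3 * f x / ‖x‖))) := by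
    apply tendsto_integral_of_L1 _ (hI hf).1 (Eventually.of_forall fun n => hI (hT n))
    have hs : Tendsto (fun n => (∫⁻ x, ‖(inner ℝ (G x) (gradient (φ n) x - F x) : ℝ)‖ₑ) +
        (∫⁻ x, ‖u x ^ 4 * (φ n x - f x)‖ₑ) + ∫⁻ x, ‖u x ^ 3 * (φ n x - f x) / ‖x‖‖ₑ) atTop (𝓝 (0 + 0 + 0)) :=
      (C1.add C2).add C3
    rw [add_zero, add_zero] at hs
    refine tendsto_of_tendsto_of_tendsto_of_le_of_le tendsto_const_nhds hs (fun _ => zero_le) (fun n => ?_)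
    have m1 : AEMeasurable (fun x => ‖(inner ℝ (G x) (gradient (φ n) x - F x) : ℝ)‖ₑ) volume := (J1 (hD n)).1.enorm
    have m2 : AEMeasurable (fun x => ‖u x ^ 4 * (φ n x - f x)‖ₑ) volume := (J2 (hD n)).1.enorm
    simp only
    rw [← lintegral_add_left' m1, ← lintegral_add_left' (f := fun x =>
      ‖(inner ℝ (G x) (gradient (φ n) x - F x) : ℝ)‖ₑ + ‖u x ^ 4 * (φ n x - f x)‖ₑ) (m1.add m2)]
    apply lintegral_mono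
    intro x
    simp only
    have e1 : (inner ℝ (G x) (gradient (φ n) x) + u x ^ 4 * φ n x - u x ^ 3 * φ n x / ‖x‖) -
        (inner ℝ (G x) (F x) + u x ^ 4 * f x - u x ^ 3 * f x / ‖x‖) =
        inner ℝ (G x) (gradient (φ n) x - F x) + u x ^ 4 * (φ n x - f x) - u x ^ 3 * (φ n x - f x) / ‖x‖ := by
      rw [inner_sub_right]; ring
    rw [e1]
    refine (enorm_sub_le).trans ?_
    gcongr
    exact enorm_add_le _ _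
  have hz : ∀ n, ∫ x, (inner ℝ (G x) (gradient (φ n) x) + u x ^ 4 * φ n x - u x ^ 3 * φ n x / ‖x‖) = 0 :=
    fun n => hweak (φ n) (hφ n).1 (hφ n).2.1 (hφ n).2.2
  simp only [hz] at hlim
  exact tendsto_nhds_unique hlim tendsto_const_nhds

end

end Pool.Agent.Q175.PZ
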