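import Pool.Agent.Q175.PZ.Basic

/-! The inequalities for functions of the class `H^1_0` -/

namespace Pool.Agent.Q175.PZ

open MeasureTheory Filter Topology Set
open scoped ENNReal NNReal

lemma two_ne_zero' : (2 : ℝ≥0∞) ≠ 0 := by norm_num

/-- the square of the `L²` norm -/
lemma N_sq {F : Type*} [NormedAddCommGroup F] (μ : Measure E3) (f : E3 → F) :
    eLpNorm f 2 μ ^ 2 = ∫⁻ x, ‖f x‖ₑ ^ 2 ∂μ := by
  have h := eLpNorm_nnreal_pow_eq_lintegral (f := f) (μ := μ) (p := 2) (by norm_num)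
  simpa using h

lemma N_six (f : E3 → ℝ) : eLpNorm f 6 volume ^ 6 = ∫⁻ x, ‖f x‖ₑ ^ 6 := by
  have h := eLpNorm_nnreal_pow_eq_lintegral (f := f) (μ := (volume : Measure E3)) (p := 6) (by norm_num)
  have e1 : ((6 : ℝ≥0) : ℝ) = ((6 : ℕ) : ℝ) := by norm_num
  rw [e1] at h
  simp only [ENNReal.rpow_natCast] at h
  exact_mod_cast h

/-- the Sobolev constant (to the sixth power) -/
noncomputable def SC : ℝ≥0∞ :=
  (eLpNormLESNormFDerivOfEqInnerConst (volume : Measure E3) 2 : ℝ≥0∞) ^ 6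

lemma SC_top : SC ≠ ∞ := ENNReal.pow_ne_top ENNReal.coe_ne_top

lemma sob {φ : E3 → ℝ} (h1 : ContDiff ℝ 1 φ) (h2 : HasCompactSupport φ) :
    ∫⁻ x, ‖φ x‖ₑ ^ 6 ≤ SC * eLpNorm (fderiv ℝ φ) 2 volume ^ 6 := by
  have h := eLpNorm_le_eLpNorm_fderiv_of_eq_inner (volume : Measure E3) h1 h2 (p := 2) (p' := 6)
    (by norm_num) (by simp) (by simp; norm_num)
  rw [← N_six]
  calc eLpNorm φ 6 volume ^ 6 ≤ ((eLpNormLESNormFDerivOfEqInnerConst (volume : Measure E3) 2 : ℝ≥0∞) * eLpNorm (fderiv ℝ φ) 2 volume) ^ 6 := by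
        gcongr; exact_mod_cast h
    _ = _ := by rw [mul_pow]; rfl

lemma eLpNorm_gradient (φ : E3 → ℝ) : eLpNorm (gradient φ) 2 volume = eLpNorm (fderiv ℝ φ) 2 volume := by
  apply eLpNorm_congr_norm_ae
  filter_upwards with x
  unfold gradient
  rw [LinearIsometryEquiv.norm_map]

lemma hardy_enn {φ : E3 → ℝ} (h : Test0 φ) :
    ∫⁻ x, (wt x * ‖φ x‖ₑ) ^ 2 ≤ 4 * eLpNorm (fderiv ℝ φ) 2 volume ^ 2 := by
  obtain ⟨I1, I2, hle⟩ := hardy_real h
  rw [N_sq]
  have e1 : ∀ x, (wt x * ‖φ x‖ₑ) ^ 2 = ENNReal.ofReal (φ x ^ 2 * inv2 x) := by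
    intro x
    by_cases hx : x = 0
    · have : φ x = 0 := by
        subst hx
        exact image_eq_zero_of_notMem_tsupport h.zero
      simp [this]
    · have hn : 0 < ‖x‖ := norm_pos_iff.mpr hx
      unfold wt inv2
      rw [mul_pow, ← ofReal_norm, ← ofReal_norm, ← ENNReal.ofReal_inv_of_pos hn,
        ← ENNReal.ofReal_pow (by positivity), ← ENNReal.ofReal_pow (by positivity),
        ← ENNReal.ofReal_mul (by positivity)]
      congr 1
      rw [Real.norm_eq_abs, sq_abs]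
      ring
  have e2 : ∀ x, ‖fderiv ℝ φ x‖ₑ ^ 2 = ENNReal.ofReal (‖fderiv ℝ φ x‖ ^ 2) := by
    intro x
    rw [← ofReal_norm, ← ENNReal.ofReal_pow (by positivity)]
  have p1 : ∀ x, 0 ≤ φ x ^ 2 * inv2 x := by
    intro x; unfold inv2; positivity
  simp only [e1, e2]
  rw [← ofReal_integral_eq_lintegral_ofReal I1 (Eventually.of_forall p1),
    ← ofReal_integral_eq_lintegral_ofReal I2 (Eventually.of_forall fun x => by positivity)]
  calc ENNReal.ofReal (∫ x, φ x ^ 2 * inv2 x) ≤ ENNReal.ofReal (4 * ∫ x, ‖fderiv ℝ φ x‖ ^ 2) :=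
        ENNReal.ofReal_le_ofReal hle
    _ = _ := by rw [ENNReal.ofReal_mul (by norm_num)]; norm_num

lemma hs {φ : E3 → ℝ} (h : Test0 φ) :
    (∫⁻ x, ‖φ x‖ₑ ^ 4 ∂muw) ^ 2 ≤ 4 * SC * eLpNorm (fderiv ℝ φ) 2 volume ^ 8 := by
  have hm : Measurable (fun x => ‖φ x‖ₑ) := h.cont.measurable.enorm
  rw [muw_lint _ (hm.pow_const 4).aemeasurable]
  have e1 : ∀ x, wt x * ‖φ x‖ₑ ^ 4 = (wt x * ‖φ x‖ₑ) * ‖φ x‖ₑ ^ 3 := by intro x; ring
  simp only [e1]
  refine (cs volume ((wt_meas.mul hm).aemeasurable) (hm.pow_const 3).aemeasurable).trans ?_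
  have e2 : ∀ x, (‖φ x‖ₑ ^ 3) ^ 2 = ‖φ x‖ₑ ^ 6 := by intro x; ring
  simp only [e2]
  calc (∫⁻ x, (wt x * ‖φ x‖ₑ) ^ 2) * ∫⁻ x, ‖φ x‖ₑ ^ 6
      ≤ (4 * eLpNorm (fderiv ℝ φ) 2 volume ^ 2) * (SC * eLpNorm (fderiv ℝ φ) 2 volume ^ 6) := by
        gcongr
        · exact hardy_enn h
        · exact sob h.smooth h.supp
    _ = _ := by ring

/-- The class `H^1_0(Ω)` as in the frozen statement: `f` is the limit of test functions and `F` is
the limit of their gradients. -/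
structure IsH (Ω : Set E3) (f : E3 → ℝ) (F : E3 → E3) : Prop where
  memf : MemLp f 2 volume
  memF : MemLp F 2 volume
  seq : ∃ φ : ℕ → E3 → ℝ,
        (∀ n, ContDiff ℝ ((⊤ : ℕ∞) : WithTop ℕ∞) (φ n) ∧
              HasCompactSupport (φ n) ∧ tsupport (φ n) ⊆ Ω) ∧
        Tendsto (fun n => eLpNorm (fun x => φ n x - f x) 2 volume) atTop (𝓝 0) ∧
        Tendsto (fun n => eLpNorm (fun x => gradient (φ n) x - F x) 2 volume)
          atTop (𝓝 0)

lemma test0_of {Ω : Set E3} (h0 : (0 : E3) ∉ Ω) {φ : E3 → ℝ}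
    (h : ContDiff ℝ ((⊤ : ℕ∞) : WithTop ℕ∞) φ ∧ HasCompactSupport φ ∧ tsupport φ ⊆ Ω) : Test0 φ :=
  ⟨h.1.of_le (by exact_mod_cast le_top), h.2.1, fun h1 => h0 (h.2.2 h1)⟩

lemma grad_cont {φ : E3 → ℝ} (h : ContDiff ℝ 1 φ) : Continuous (gradient φ) := by
  have : Continuous (fderiv ℝ φ) := h.continuous_fderiv (by norm_num)
  exact (InnerProductSpace.toDual ℝ E3).symm.continuous.comp this

/-- Fatou's lemma for our classes -/
lemma fatou_class {Ω : Set E3} {f : E3 → ℝ} {F : E3 → E3} (h : IsH Ω f F) (μ : Measure E3)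
    (hμ : μ ≪ volume) (r : ℕ) (P : ℝ≥0∞ → ℝ≥0∞) (hP : Continuous P) (hPm : Monotone P)
    (hbd : ∀ φ : E3 → ℝ, ContDiff ℝ ((⊤ : ℕ∞) : WithTop ℕ∞) φ → HasCompactSupport φ → tsupport φ ⊆ Ω →
      ∫⁻ x, ‖φ x‖ₑ ^ r ∂μ ≤ P (eLpNorm (gradient φ) 2 volume)) :
    ∫⁻ x, ‖f x‖ₑ ^ r ∂μ ≤ P (eLpNorm F 2 volume) := by
  obtain ⟨φ, hφ, h1, h2⟩ := h.seq
  have hφc : ∀ n, Continuous (φ n) := fun n => (hφ n).1.continuous
  have hm : TendstoInMeasure volume φ atTop f := by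
    apply tendstoInMeasure_of_tendsto_eLpNorm (p := 2) (by norm_num)
      (fun n => (hφc n).aestronglyMeasurable) h.memf.aestronglyMeasurable
    exact h1
  obtain ⟨ns, hns, hae⟩ := hm.exists_seq_tendsto_ae
  have hae' : ∀ᵐ x ∂μ, Tendsto (fun i => φ (ns i) x) atTop (𝓝 (f x)) := hμ hae
  have hN : Tendsto (fun n => eLpNorm (gradient (φ n)) 2 volume) atTop (𝓝 (eLpNorm F 2 volume)) := by
    have hup : ∀ n, eLpNorm (gradient (φ n)) 2 volume ≤ eLpNorm (fun x => gradient (φ n) x - F x) 2 volume + eLpNorm F 2 volume := by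
      intro n
      have hg := (grad_cont ((hφ n).1.of_le (by exact_mod_cast le_top))).aestronglyMeasurable (μ := (volume : Measure E3))
      have := eLpNorm_add_le (μ := (volume : Measure E3)) (p := 2) (hg.sub h.memF.aestronglyMeasurable) h.memF.aestronglyMeasurable (by norm_num)
      refine le_trans (le_of_eq ?_) this
      congr 1; ext x : 1; simp
    have hlo : ∀ n, eLpNorm F 2 volume ≤ eLpNorm (fun x => gradient (φ n) x - F x) 2 volume + eLpNorm (gradient (φ n)) 2 volume := by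
      intro n
      have hg := (grad_cont ((hφ n).1.of_le (by exact_mod_cast le_top))).aestronglyMeasurable (μ := (volume : Measure E3))
      have := eLpNorm_add_le (μ := (volume : Measure E3)) (p := 2) (h.memF.aestronglyMeasurable.sub hg) hg (by norm_num)
      have e1 : eLpNorm (F - gradient (φ n)) 2 volume = eLpNorm (fun x => gradient (φ n) x - F x) 2 volume := by
        apply eLpNorm_congr_norm_ae
        filter_upwards with x
        simp [norm_sub_rev]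
      rw [e1] at this
      refine le_trans (le_of_eq ?_) this
      congr 1; ext x : 1; simp
    refine tendsto_of_tendsto_of_tendsto_of_le_of_le (g := fun n => eLpNorm F 2 volume - eLpNorm (fun x => gradient (φ n) x - F x) 2 volume)
      (h := fun n => eLpNorm (fun x => gradient (φ n) x - F x) 2 volume + eLpNorm F 2 volume) ?_ ?_ ?_ hup
    · have := ENNReal.Tendsto.sub (tendsto_const_nhds (x := eLpNorm F 2 volume) (f := atTop (α := ℕ))) h2 (Or.inl h.memF.eLpNorm_ne_top)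
      simpa using this
    · have := h2.add (tendsto_const_nhds (x := eLpNorm F 2 volume) (f := atTop (α := ℕ)))
      simpa using this
    · intro n
      exact tsub_le_iff_left.mpr (hlo n)
  have hN2 : Tendsto (fun i => P (eLpNorm (gradient (φ (ns i))) 2 volume)) atTop (𝓝 (P (eLpNorm F 2 volume))) :=
    (hP.tendsto _).comp (hN.comp hns.tendsto_atTop)
  calc ∫⁻ x, ‖f x‖ₑ ^ r ∂μ ≤ ∫⁻ x, liminf (fun i => ‖φ (ns i) x‖ₑ ^ r) atTop ∂μ := by
        apply lintegral_mono_ae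
        filter_upwards [hae'] with x hx
        have : Tendsto (fun i => ‖φ (ns i) x‖ₑ ^ r) atTop (𝓝 (‖f x‖ₑ ^ r)) :=
          ((ENNReal.continuous_pow r).tendsto _).comp ((continuous_enorm.tendsto _).comp hx)
        rw [this.liminf_eq]
    _ ≤ liminf (fun i => ∫⁻ x, ‖φ (ns i) x‖ₑ ^ r ∂μ) atTop := by
        apply lintegral_liminf_le
        intro i
        exact (hφc (ns i)).measurable.enorm.pow_const r
    _ ≤ liminf (fun i => P (eLpNorm (gradient (φ (ns i))) 2 volume)) atTop := by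
        refine liminf_le_liminf ?_ (by isBoundedDefault) (by isBoundedDefault)
        filter_upwards with i
        exact hbd _ (hφ _).1 (hφ _).2.1 (hφ _).2.2
    _ = P (eLpNorm F 2 volume) := hN2.liminf_eq

lemma six_bound {Ω : Set E3} {f : E3 → ℝ} {F : E3 → E3} (h : IsH Ω f F) :
    ∫⁻ x, ‖f x‖ₑ ^ 6 ≤ SC * eLpNorm F 2 volume ^ 6 := by
  refine fatou_class h volume Measure.AbsolutelyContinuous.rfl 6 (fun y => SC * y ^ 6) ?_ ?_ ?_
  · exact (ENNReal.continuous_const_mul SC_top).comp (ENNReal.continuous_pow 6)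
  · intro a b hab
    simp only
    gcongr
  · intro φ h1 h2 _
    rw [eLpNorm_gradient]
    exact sob (h1.of_le (by exact_mod_cast le_top)) h2

/-- the Hardy-Sobolev constant -/
noncomputable def HC : ℝ≥0∞ := (4 * SC) ^ (1/2 : ℝ)

lemma HC_top : HC ≠ ∞ := by
  unfold HC
  apply ENNReal.rpow_ne_top_of_nonneg (by norm_num)
  exact ENNReal.mul_ne_top (by norm_num) SC_top

lemma hs' {φ : E3 → ℝ} (h : Test0 φ) :
    ∫⁻ x, ‖φ x‖ₑ ^ 4 ∂muw ≤ HC * eLpNorm (fderiv ℝ φ) 2 volume ^ 4 := by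
  have h1 := hs h
  have h2 : HC ^ 2 = 4 * SC := by
    unfold HC
    rw [← ENNReal.rpow_natCast, ← ENNReal.rpow_mul]
    norm_num
  have h3 : (∫⁻ x, ‖φ x‖ₑ ^ 4 ∂muw) ^ 2 ≤ (HC * eLpNorm (fderiv ℝ φ) 2 volume ^ 4) ^ 2 := by
    rw [mul_pow, h2, ← pow_mul]
    exact h1
  exact (ENNReal.pow_le_pow_left_iff (by norm_num)).mp h3

lemma w_bound {Ω : Set E3} (h0 : (0 : E3) ∉ Ω) {f : E3 → ℝ} {F : E3 → E3} (h : IsH Ω f F) :
    ∫⁻ x, ‖f x‖ₑ ^ 4 ∂muw ≤ HC * eLpNorm F 2 volume ^ 4 := by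
  refine fatou_class h muw muw_ac 4 (fun y => HC * y ^ 4) ?_ ?_ ?_
  · exact (ENNReal.continuous_const_mul HC_top).comp (ENNReal.continuous_pow 4)
  · intro a b hab
    simp only
    gcongr
  · intro φ h1 h2 h3
    rw [eLpNorm_gradient]
    exact hs' (test0_of h0 ⟨h1, h2, h3⟩)

end Pool.Agent.Q175.PZ
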